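import Mathlib
set_option autoImplicit false
set_option linter.unusedSectionVars false

/-!
# Representations in which an involution has a fixed space of dimension one on a subspace
-/

namespace Pool.Agent.Q244.TD

open Module

section abs

variable {k : Type} [Field k] [CharZero k] [IsAlgClosed k]

theorem trace_alg {W : Type} [AddCommGroup W] [Module k W] [Module.Finite k W]
    (f : Module.End k W) {N : ℕ} (hN : 0 < N) (hf : f ^ N = 1) :
    IsAlgebraic ℚ (LinearMap.trace k W f) := by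
  have h1 : LinearMap.trace k W f = f.charpoly.roots.sum :=
    Module.End.trace_eq_sum_roots_charpoly_of_splits (IsAlgClosed.splits _)
  rw [h1, ← mem_algebraicClosure_iff]
  refine multiset_sum_mem _ fun μ hμ => ?_
  rw [mem_algebraicClosure_iff]
  have h2 : Module.End.HasEigenvalue f μ :=
    (Module.End.hasEigenvalue_iff_isRoot_charpoly f μ).2 (Polynomial.isRoot_of_mem_roots hμ)
  obtain ⟨v, hv⟩ := h2.exists_hasEigenvector
  have h3 : ∀ n : ℕ, (f ^ n) v = μ ^ n • v := by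
    intro n
    induction n with
    | zero => simp
    | succ n ih =>
      rw [pow_succ, Module.End.mul_apply, hv.apply_eq_smul, map_smul, ih, smul_smul, pow_succ]
      congr 1
      ring
  have h4 : μ ^ N = 1 := by
    have h5 := h3 N
    rw [hf, Module.End.one_apply] at h5
    have h6 : (μ ^ N - 1) • v = 0 := by rw [sub_smul, ← h5, one_smul, sub_self]
    exact sub_eq_zero.1 ((smul_eq_zero.1 h6).resolve_right hv.2)
  exact IsIntegral.isAlgebraic (IsIntegral.of_pow hN (by rw [h4]; exact isIntegral_one))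

variable {V : Type} [AddCommGroup V] [Module k V] {G : Type} [Group G] [Fintype G]
  (ρ : G →* Module.End k V) (ℓ : V →ₗ[k] k)

/-- the restricted representation -/
noncomputable def resRep (W : Submodule k V) (hW : ∀ g, ∀ x ∈ W, ρ g x ∈ W) :
    G →* Module.End k W where
  toFun g := (ρ g).restrict (hW g)
  map_one' := by
    ext x
    simp
  map_mul' g h := by
    ext x
    simp

theorem coe_resRep (W : Submodule k V) (hW : ∀ g, ∀ x ∈ W, ρ g x ∈ W) (g : G) (x : W) :
    ((resRep ρ W hW g x : W) : V) = ρ g (x : V) := rfl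

theorem exists_coeffs {c : G} (hcc : c * c = 1) (hℓ : ∀ v, ℓ (ρ c v) = ℓ v)
    (hinj : ∀ v, (∀ g, ℓ (ρ g v) = 0) → v = 0) (W : Submodule k V) [Module.Finite k W]
    (hW : ∀ g, ∀ x ∈ W, ρ g x ∈ W) {w : V} (hwW : w ∈ W) (hw : ρ c w = w) (hℓw : ℓ w ≠ 0)
    (hfix : ∀ x ∈ W, ρ c x = x → ∃ κ : k, x = κ • w) :
    ∃ a : G → k, (∀ g, IsAlgebraic ℚ (a g)) ∧ (∀ y, ∃ κ : k, ∑ g, a g • ρ g y = κ • w) ∧
      ∃ y, ∑ g, a g • ρ g y ≠ 0 := by
  classical
  have two : (2 : k) ≠ 0 := two_ne_zero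
  have mulρ : ∀ g h v, ρ (g * h) v = ρ g (ρ h v) := fun g h v => by rw [map_mul, Module.End.mul_apply]
  have oneρ : ∀ v, ρ 1 v = v := fun v => by rw [map_one, Module.End.one_apply]
  -- the projection to the fixed vectors
  have hproj : ∀ v ∈ W, v + ρ c v = (2 * ℓ v / ℓ w) • w := by
    intro v hv
    obtain ⟨κ, hκ⟩ := hfix (v + ρ c v) (add_mem hv (hW c v hv)) (by
      rw [map_add, ← mulρ, hcc, oneρ, add_comm])
    have h1 := congrArg ℓ hκ
    rw [map_add, hℓ, map_smul, smul_eq_mul] at h1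
    rw [hκ]
    congr 1
    field_simp
    linear_combination -h1
  -- invariant functionals
  have hfun : ∀ Λ : V →ₗ[k] k, (∀ v, Λ (ρ c v) = Λ v) → ∀ v ∈ W, Λ v = ℓ v * Λ w / ℓ w := by
    intro Λ hΛ v hv
    have h1 := congrArg Λ (hproj v hv)
    rw [map_add, hΛ, map_smul, smul_eq_mul] at h1
    field_simp
    field_simp at h1
    have h2 : (2 : k) * (Λ v * ℓ w) = 2 * (ℓ v * Λ w) := by linear_combination h1
    exact mul_left_cancel₀ two h2
  let a : G → k := fun g => ℓ (ρ g⁻¹ w) / ℓ w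
  let Lam : V → V →ₗ[k] k := fun y => ∑ g, ℓ (ρ g y) • (ℓ ∘ₗ ρ g⁻¹)
  have hLam : ∀ y v, Lam y v = ∑ g, ℓ (ρ g y) * ℓ (ρ g⁻¹ v) := by
    intro y v
    simp only [Lam, LinearMap.sum_apply, LinearMap.smul_apply, LinearMap.comp_apply, smul_eq_mul]
  have hLamc : ∀ y v, Lam y (ρ c v) = Lam y v := by
    intro y v
    rw [hLam, hLam]
    refine Fintype.sum_equiv (Equiv.mulLeft c) _ _ fun g => ?_
    rw [Equiv.coe_mulLeft, mulρ, hℓ, ← mulρ]
    congr 3
    have h1 : c⁻¹ = c := inv_eq_of_mul_eq_one_right hcc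
    rw [mul_inv_rev, h1]
  have hT : ∀ y, ∑ g, a g • ρ g y = (Lam y w / (ℓ w * ℓ w)) • w := by
    intro y
    rw [← sub_eq_zero]
    apply hinj
    intro h
    rw [map_sub, map_sub, sub_eq_zero, map_sum, map_sum, map_smul, map_smul, smul_eq_mul]
    have h1 : Lam y (ρ h w) = ℓ (ρ h w) * Lam y w / ℓ w := hfun _ (hLamc y) _ (hW h w hwW)
    have h2 : ∑ g, ℓ (ρ h (a g • ρ g y)) = Lam y (ρ h w) / ℓ w := by
      rw [hLam, Finset.sum_div]
      refine Fintype.sum_equiv (Equiv.mulLeft h) _ _ fun g => ?_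
      rw [Equiv.coe_mulLeft, map_smul, map_smul, smul_eq_mul, ← mulρ, ← mulρ, mul_inv_rev,
        inv_mul_cancel_right]
      show ℓ (ρ g⁻¹ w) / ℓ w * _ = _
      ring
    rw [h2, h1]
    field_simp
  refine ⟨a, fun g => ?_, fun y => ⟨_, hT y⟩, ?_⟩
  · -- the coefficients are algebraic
    let R := resRep ρ W hW
    have hpow : ∀ h : G, R h ^ Fintype.card G = 1 := fun h => by
      rw [← map_pow, pow_card_eq_one, map_one]
    have h1 := trace_alg (R g⁻¹) Fintype.card_pos (hpow _)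
    have h2 := trace_alg (R (c * g⁻¹)) Fintype.card_pos (hpow _)
    have h3 : R g⁻¹ + R (c * g⁻¹) = ((2 / ℓ w) • ((ℓ ∘ₗ W.subtype) ∘ₗ R g⁻¹)).smulRight ⟨w, hwW⟩ := by
      ext x
      simp only [LinearMap.add_apply, Submodule.coe_add, LinearMap.smulRight_apply,
        LinearMap.smul_apply, LinearMap.comp_apply, Submodule.coe_smul, smul_eq_mul]
      rw [show ((R (c * g⁻¹) x : W) : V) = ρ c (ρ g⁻¹ (x : V)) from mulρ _ _ _]
      show ρ g⁻¹ (x : V) + _ = (2 / ℓ w * ℓ (ρ g⁻¹ (x : V))) • w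
      rw [hproj _ (hW g⁻¹ _ x.2)]
      congr 1
      ring
    have h4 := congrArg (LinearMap.trace k W) h3
    rw [map_add, LinearMap.trace_smulRight] at h4
    have h5 : a g = (LinearMap.trace k W (R g⁻¹) + LinearMap.trace k W (R (c * g⁻¹))) * (2 : k)⁻¹ := by
      rw [h4]
      show ℓ (ρ g⁻¹ w) / ℓ w = (2 / ℓ w * ℓ (ρ g⁻¹ w)) * (2 : k)⁻¹
      field_simp
    rw [h5]
    have h6 : IsAlgebraic ℚ (2 : k) := by
      have := isAlgebraic_algebraMap (R := ℚ) (A := k) (2 : ℚ)
      simpa using this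
    exact (h1.add h2).mul h6.inv
  · -- the operator is not zero
    let R := resRep ρ W hW
    let Φ : Module.End k W := ∑ g, ((ℓ ∘ₗ W.subtype) ∘ₗ R g).smulRight (R g⁻¹ ⟨w, hwW⟩)
    have htr : LinearMap.trace k W Φ = Fintype.card G * ℓ w := by
      simp only [Φ]
      rw [map_sum]
      have h1 : ∀ g : G, LinearMap.trace k W
          (((ℓ ∘ₗ W.subtype) ∘ₗ R g).smulRight (R g⁻¹ ⟨w, hwW⟩)) = ℓ w := by
        intro g
        rw [LinearMap.trace_smulRight]
        show ℓ (ρ g (ρ g⁻¹ w)) = ℓ w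
        rw [← mulρ, mul_inv_cancel, oneρ]
      rw [Finset.sum_congr rfl fun g _ => h1 g, Finset.sum_const, Finset.card_univ, nsmul_eq_mul]
    have hΦ : Φ ≠ 0 := by
      intro h0
      rw [h0, map_zero] at htr
      exact mul_ne_zero (by exact_mod_cast Fintype.card_ne_zero) hℓw htr.symm
    obtain ⟨v, hv⟩ : ∃ v, Φ v ≠ 0 := by
      by_contra h
      push Not at h
      exact hΦ (LinearMap.ext h)
    have hv' : ((Φ v : W) : V) ≠ 0 := fun h => hv (Subtype.ext h)
    obtain ⟨h, hh⟩ : ∃ h, ℓ (ρ h ((Φ v : W) : V)) ≠ 0 := by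
      by_contra h
      push Not at h
      exact hv' (hinj _ h)
    refine ⟨ρ h v, ?_⟩
    rw [hT]
    have h6 : Lam (ρ h v) w = ℓ (ρ h ((Φ v : W) : V)) := by
      have h7 : ((Φ v : W) : V) = ∑ g, ℓ (ρ g v) • ρ g⁻¹ w := by
        simp only [Φ, LinearMap.sum_apply, AddSubmonoidClass.coe_finsetSum]
        rfl
      rw [h7, map_sum, map_sum, hLam]
      refine Fintype.sum_equiv (Equiv.mulRight h) _ _ fun g => ?_
      rw [Equiv.coe_mulRight, map_smul, map_smul, smul_eq_mul, ← mulρ, ← mulρ, mul_inv_rev,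
        mul_inv_cancel_left]
    intro h8
    rcases smul_eq_zero.1 h8 with h9 | h9
    · rw [h6] at h9
      rcases div_eq_zero_iff.1 h9 with h10 | h10
      · exact hh h10
      · exact mul_ne_zero hℓw hℓw h10
    · rw [h9, map_zero] at hℓw
      exact hℓw rfl

end abs

end Pool.Agent.Q244.TD
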