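import Pool.Agent.Q244.TD.Min
import Pool.Agent.Q244.TD.Coeff

/-!
# Complex conjugations and Galois stable subspaces of the Leopoldt kernel
-/

set_option autoImplicit false
set_option linter.unusedSectionVars false
namespace Pool.Agent.Q244.TD

open NumberField TensorProduct Module
open NumberField.Units NumberField.Units.dirichletUnitTheorem
open Pool.Agent.W289.SL Pool.Agent.W332.SL6
open Pool.Agent.W254.PA (exists_theta)
open Pool.Agent.W332.SL7 (QSub FinQ dimQ Bounds Coords push_injective)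
open Pool.Agent.Q244.LK

variable {p : ℕ} [hp : Fact p.Prime]
variable {L : ℂ_[p] → ℂ_[p]} (hL : IsIwasawaLog p L)

/-- the action of the Galois group on `ℂ_p ⊗ 𝓞_F^×` -/
noncomputable def unitRep (F : Type) [Field F] [NumberField F] :
    (F ≃ₐ[ℚ] F) →* Module.End ℂ_[p] (UM p F) where
  toFun γ := push (γ : F →+* F)
  map_one' := LinearMap.ext fun x => push_one x
  map_mul' γ δ := LinearMap.ext fun x => push_mul γ δ x

theorem unitRep_apply {F : Type} [Field F] [NumberField F] (γ : F ≃ₐ[ℚ] F) (x : UM p F) :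
    unitRep F γ x = push (γ : F →+* F) x := rfl

/-- the elements of `W` which are fixed by `c` -/
noncomputable def fixedIn {F : Type} [Field F] [NumberField F] (c : F ≃ₐ[ℚ] F)
    (W : Submodule ℂ_[p] (UM p F)) : Submodule ℂ_[p] (UM p F) :=
  W ⊓ LinearMap.eqLocus (push (c : F →+* F)) LinearMap.id

theorem mem_fixedIn {F : Type} [Field F] [NumberField F] {c : F ≃ₐ[ℚ] F}
    {W : Submodule ℂ_[p] (UM p F)} {x : UM p F} :
    x ∈ fixedIn c W ↔ x ∈ W ∧ push (c : F →+* F) x = x := Iff.rfl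

theorem two_le {F : Type} [Field F] [NumberField F] [IsGalois ℚ F]
    (W : Submodule ℂ_[p] (UM p F)) (hW : ∀ γ : F ≃ₐ[ℚ] F, ∀ x ∈ W, push (γ : F →+* F) x ∈ W)
    (hW0 : ∀ x ∈ W, ∀ σ : F →+* ℂ_[p], logLin hL σ x = 0) (hne : W ≠ ⊥) (s : F →+* ℂ)
    (c : F ≃ₐ[ℚ] F) (hc : ∀ y, s (c y) = starRingEnd ℂ (s y)) :
    2 ≤ finrank ℂ_[p] (fixedIn c W) := by
  classical
  have i1 : Module.Finite ℂ_[p] (UM p F) := um_finite
  obtain ⟨θ⟩ := exists_theta p
  let ℓ : UM p F →ₗ[ℂ_[p]] ℂ_[p] := lam θ s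
  have hcc : c * c = 1 := by
    ext y
    apply s.injective
    show s (c (c y)) = s y
    rw [hc, hc]
    exact Complex.conj_conj _
  have hℓ : ∀ v : UM p F, ℓ (unitRep F c v) = ℓ v := by
    intro v
    show lam θ s (push (c : F →+* F) v) = lam θ s v
    rw [lam_push]
    have h1 : s.comp (c : F →+* F) = (starRingEnd ℂ).comp s := RingHom.ext hc
    rw [h1, lam_conj]
  have hinj : ∀ v : UM p F, (∀ g : F ≃ₐ[ℚ] F, ℓ (unitRep F g v) = 0) → v = 0 := by
    intro v hv
    apply eq_zero_of_lam θ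
    intro t
    obtain ⟨δ, hδ⟩ := exists_aut (K := ℚ) (H := F) t s (RingHom.ext_rat _ _)
    rw [hδ, ← lam_push]
    exact hv δ
  -- a fixed vector
  obtain ⟨x, hxW, hx⟩ := (Submodule.ne_bot_iff W).1 hne
  obtain ⟨g, hg⟩ : ∃ g : F ≃ₐ[ℚ] F, ℓ (unitRep F g x) ≠ 0 := by
    by_contra h
    push Not at h
    exact hx (hinj x h)
  set v : UM p F := unitRep F g x with hv
  have hvW : v ∈ W := hW g x hxW
  set w : UM p F := v + unitRep F c v with hwdef
  have hwW : w ∈ W := add_mem hvW (hW c v hvW)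
  have hw : unitRep F c w = w := by
    have h2 : ∀ u : UM p F, unitRep F c (unitRep F c u) = u := fun u => by
      rw [← Module.End.mul_apply, ← map_mul, hcc, map_one, Module.End.one_apply]
    rw [hwdef, map_add, h2, add_comm]
  have hℓw : ℓ w ≠ 0 := by
    rw [hwdef, map_add, hℓ, ← two_mul]
    exact mul_ne_zero two_ne_zero hg
  have hw0 : w ≠ 0 := fun h => hℓw (by rw [h, map_zero])
  by_contra hlt
  have hfix : ∀ x ∈ W, unitRep F c x = x → ∃ κ : ℂ_[p], x = κ • w := by
    intro x hx hcx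
    by_contra hno
    apply hlt
    have hli : LinearIndependent ℂ_[p] ![w, x] := by
      rw [LinearIndependent.pair_iff]
      intro a b hab
      by_cases hb : b = 0
      · rw [hb, zero_smul, add_zero] at hab
        exact ⟨(smul_eq_zero.1 hab).resolve_right hw0, hb⟩
      · exfalso
        apply hno
        refine ⟨-(b⁻¹ * a), ?_⟩
        have h1 : b • x = -(a • w) := by rw [eq_neg_iff_add_eq_zero, add_comm]; exact hab
        have h2 : x = b⁻¹ • (b • x) := by rw [smul_smul, inv_mul_cancel₀ hb, one_smul]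
        rw [h2, h1, smul_neg, smul_smul, neg_smul]
    have hmem : ∀ i, (![w, x] : Fin 2 → UM p F) i ∈ fixedIn c W := by
      intro i
      fin_cases i
      · exact ⟨hwW, hw⟩
      · exact ⟨hx, hcx⟩
    have hli' : LinearIndependent ℂ_[p]
        (fun i => (⟨(![w, x] : Fin 2 → UM p F) i, hmem i⟩ : fixedIn c W)) :=
      LinearIndependent.of_comp (fixedIn c W).subtype hli
    simpa using hli'.fintype_card_le_finrank
  obtain ⟨a, ha, h1, y, hy⟩ := exists_coeffs (unitRep F) ℓ hcc hℓ hinj W (fun γ x hx => hW γ x hx)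
    hwW hw hℓw hfix
  -- an element with algebraic coordinates
  obtain ⟨b, hb⟩ := decomp y
  let e : UM p F →ₗ[ℂ_[p]] UM p F := ∑ g : F ≃ₐ[ℚ] F, a g • unitRep F g
  have he : ∀ y, e y = ∑ g : F ≃ₐ[ℚ] F, a g • unitRep F g y := by
    intro y
    simp only [e, LinearMap.sum_apply, LinearMap.smul_apply]
  have hk : ∃ k, e ((1 : ℂ_[p]) ⊗ₜ[ℤ] fu F k) ≠ 0 := by
    by_contra h
    push Not at h
    apply hy
    rw [← he, hb, map_sum]
    exact Finset.sum_eq_zero fun k _ => by rw [map_smul, h k, smul_zero]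
  obtain ⟨k, hk⟩ := hk
  set z := e ((1 : ℂ_[p]) ⊗ₜ[ℤ] fu F k) with hz
  have hz0 : ∀ σ : F →+* ℂ_[p], logLin hL σ z = 0 := by
    intro σ
    obtain ⟨κ, hκ⟩ := h1 ((1 : ℂ_[p]) ⊗ₜ[ℤ] fu F k)
    rw [hz, he, hκ, map_smul, hW0 w hwW, smul_zero]
  let A₀ : QSub ℂ_[p] := Submodule.span _ {(1 : ℂ_[p])}
  have hA₀ : FinQ A₀ := by
    show FiniteDimensional _ _
    exact FiniteDimensional.span_of_finite _ (Set.finite_singleton _)
  have hd : dimQ A₀ = 1 := finrank_span_singleton one_ne_zero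
  have hzA : Coords A₀ z := by
    rw [hz, he]
    refine AddSubmonoid.sum_mem _ fun g _ => AddSubmonoid.subset_closure
      ⟨a g, ?_, uMap (g : F →+* F) (fu F k), ?_⟩
    · rw [Submodule.mem_span_singleton]
      exact ⟨⟨a g, mem_algebraicClosure_iff.2 (ha g)⟩, mul_one _⟩
    · rw [unitRep_apply, push_tmul, TensorProduct.smul_tmul', smul_eq_mul, mul_one]
  have hB := bounds_family hL A₀ hA₀ (r := 1) (fun _ => z)
    (by rw [linearIndependent_unique_iff]; exact hk) (fun _ => ⟨hzA, hz0⟩)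
  have h9 := hB.dim
  rw [hd] at h9
  omega

variable {hL} in
theorem logLin_KSp {A : QSub ℂ_[p]} {K : Type} [Field K] [NumberField K] {x : UM p K}
    (hx : x ∈ KSp hL A K) (σ : K →+* ℂ_[p]) : logLin hL σ x = 0 := by
  refine Submodule.span_induction (p := fun x _ => logLin hL σ x = 0) ?_ ?_ ?_ ?_ hx
  · exact fun y hy => hy.2 σ
  · rw [map_zero]
  · intro y z _ _ h1 h2
    rw [map_add, h1, h2, add_zero]
  · intro c y _ h1
    rw [map_smul, h1, smul_zero]

/-- stable under the Galois group -/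
def Stable {F : Type} [Field F] [NumberField F] (W : Submodule ℂ_[p] (UM p F)) : Prop :=
  ∀ γ : F ≃ₐ[ℚ] F, ∀ x ∈ W, push (γ : F →+* F) x ∈ W

theorem stable_KSp (A : QSub ℂ_[p]) (F : Type) [Field F] [NumberField F] :
    Stable (KSp hL A F) := fun γ x hx => (repr hL A F γ ⟨x, hx⟩).2

/-- complex conjugations -/
def IsConj' {F : Type} [Field F] [NumberField F] (c : F ≃ₐ[ℚ] F) : Prop :=
  ∃ s : F →+* ℂ, ∀ y, s (c y) = starRingEnd ℂ (s y)

/-- Galois fields: each embedding has a complex conjugation. -/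
theorem exists_conj {F : Type} [Field F] [NumberField F] [IsGalois ℚ F] (s : F →+* ℂ) :
    ∃ c : F ≃ₐ[ℚ] F, ∀ y, s (c y) = starRingEnd ℂ (s y) := by
  obtain ⟨δ, hδ⟩ := exists_aut (K := ℚ) (H := F) ((starRingEnd ℂ).comp s) s (RingHom.ext_rat _ _)
  exact ⟨δ, fun y => (RingHom.congr_fun hδ y).symm⟩

theorem le_finrank {A : QSub ℂ_[p]} {F : Type} [Field F] [NumberField F] [IsGalois ℚ F]
    {W : Submodule ℂ_[p] (UM p F)} (hW : Stable W) (hWA : W ≤ KSp hL A F) (hne : W ≠ ⊥)
    {c : F ≃ₐ[ℚ] F} (hc : IsConj' c) : 2 ≤ finrank ℂ_[p] (fixedIn c W) := by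
  obtain ⟨s, hs⟩ := hc
  exact two_le hL W hW (fun x hx σ => logLin_KSp (hWA hx) σ) hne s c hs

/-- **Spaces of dimension at most two.** -/
theorem dim_two {A : QSub ℂ_[p]} {F : Type} [Field F] [NumberField F] [IsGalois ℚ F]
    (hB : Bounds A (finrank ℂ_[p] (KSp hL A F))) (hm : dimQ A ≤ 2) (ht : triv hL A F = ⊥) :
    IsTotallyReal F ∧ (∀ W : Submodule ℂ_[p] (UM p F), Stable W → W ≤ KSp hL A F → W ≠ ⊥ →
      W = KSp hL A F ∧ finrank ℂ_[p] W = 2) := by
  have i1 : Module.Finite ℂ_[p] (UM p F) := um_finite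
  have hn : finrank ℂ_[p] (KSp hL A F) ≤ 2 := by
    have h1 := hB.dim
    have h2 : dimQ A * (dimQ A - 1) ≤ 2 * 1 := Nat.mul_le_mul hm (by omega)
    omega
  have key : ∀ W : Submodule ℂ_[p] (UM p F), Stable W → W ≤ KSp hL A F → W ≠ ⊥ →
      ∀ c : F ≃ₐ[ℚ] F, IsConj' c → fixedIn c W = W ∧ W = KSp hL A F ∧ finrank ℂ_[p] W = 2 := by
    intro W hW hWA hne c hc
    have h1 := le_finrank hL hW hWA hne hc
    have h2 : finrank ℂ_[p] (fixedIn c W) ≤ finrank ℂ_[p] W :=
      Submodule.finrank_mono (fun x hx => hx.1)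
    have h3 : finrank ℂ_[p] W ≤ finrank ℂ_[p] (KSp hL A F) := Submodule.finrank_mono hWA
    refine ⟨?_, ?_, by omega⟩
    · exact Submodule.eq_of_le_of_finrank_eq (fun x hx => hx.1) (by omega)
    · exact Submodule.eq_of_le_of_finrank_eq hWA (by omega)
  refine ⟨?_, ?_⟩
  · -- totally real
    have hcf : ∀ c : F ≃ₐ[ℚ] F, IsConj' c → c = 1 := by
      intro c hc
      have h1 : c ∈ triv hL A F := by
        rw [mem_triv]
        intro x hx
        by_cases hx0 : x = 0
        · rw [hx0, map_zero]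
        · have hne : KSp hL A F ≠ ⊥ := by
            rw [Submodule.ne_bot_iff]
            exact ⟨x, Submodule.subset_span hx, hx0⟩
          have h2 := (key _ (stable_KSp hL A F) le_rfl hne c hc).1
          have h3 : x ∈ fixedIn c (KSp hL A F) := by
            rw [h2]
            exact Submodule.subset_span hx
          exact h3.2
      rw [ht] at h1
      exact Subgroup.mem_bot.1 h1
    refine ⟨fun v => ?_⟩
    obtain ⟨c, hc⟩ := exists_conj v.embedding
    have h1 := hcf c ⟨_, hc⟩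
    rw [← InfinitePlace.mk_embedding v, InfinitePlace.isReal_mk_iff]
    rw [ComplexEmbedding.isReal_iff]
    ext y
    rw [ComplexEmbedding.conjugate_coe_eq, ← hc y, h1]
    rfl
  · intro W hW hWA hne
    obtain ⟨s⟩ : Nonempty (F →+* ℂ) := inferInstance
    obtain ⟨c, hc⟩ := exists_conj s
    exact (key W hW hWA hne c ⟨s, hc⟩).2

end Pool.Agent.Q244.TD
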