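import Pool.Agent.Q244.TD.Sep
import Mathlib.FieldTheory.Galois.Infinite

/-!
# Characters of fields whose normal closures have a small intersection
-/

set_option autoImplicit false
set_option linter.unusedSectionVars false

namespace Pool.Agent.Q244.TD

open NumberField Module

variable {p : ℕ} [hp : Fact p.Prime]

/-- extension of embeddings -/
theorem exists_extend' {H M Ω : Type} [Field H] [CharZero H] [Field M] [Algebra ℚ M]
    [Algebra.IsAlgebraic ℚ M] [Field Ω] [IsAlgClosed Ω] (f : H →+* M) (s : H →+* Ω) :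
    ∃ t : M →+* Ω, t.comp f = s := by
  let := f.toAlgebra
  let := s.toAlgebra
  have : IsScalarTower ℚ H M := IsScalarTower.of_algebraMap_eq' (RingHom.ext_rat _ _)
  have : Algebra.IsAlgebraic H M := Algebra.IsAlgebraic.tower_top (K := ℚ) H
  let φ : M →ₐ[H] Ω := IsAlgClosed.lift
  exact ⟨φ, φ.comp_algebraMap⟩

/-- Each endomorphism of `H` is induced by an automorphism of the field of algebraic numbers. -/
theorem exists_lift {H : Type} [Field H] [NumberField H] (σ : H →+* ℂ_[p]) (h : H →+* H) :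
    ∃ g : GalQ p, Induces g σ h := by
  have i1 : Algebra.IsAlgebraic ℚ (algebraicClosure ℚ ℂ_[p]) :=
    algebraicClosure.isAlgebraic ℚ ℂ_[p]
  have i0 : IsAlgClosed (algebraicClosure ℚ ℂ_[p]) :=
    (algebraicClosure.isAlgClosure ℚ ℂ_[p]).isAlgClosed
  obtain ⟨t, ht⟩ := exists_extend' (toQb σ) ((toQb σ).comp h)
  let g : GalQ p := AlgEquiv.ofBijective (RingHom.toRatAlgHom t)
    (Algebra.IsAlgebraic.algHom_bijective _)
  refine ⟨g, fun y z hz => ?_⟩
  have h1 : z = toQb σ y := Subtype.ext hz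
  subst h1
  have h2 : g (toQb σ y) = toQb σ (h y) := RingHom.congr_fun ht y
  rw [h2]
  rfl

/-- Splitting of an automorphism. -/
theorem exists_split (N N' : IntermediateField ℚ (algebraicClosure ℚ ℂ_[p]))
    [FiniteDimensional ℚ N] [FiniteDimensional ℚ N'] (hG : IsGalois ℚ N') (g₀ : GalQ p)
    (hfix : ∀ z ∈ N ⊓ N', g₀ z = z) :
    ∃ g : GalQ p, (∀ z ∈ N, g z = g₀ z) ∧ ∀ z ∈ N', g z = z := by
  have i1 : Algebra.IsAlgebraic ℚ (algebraicClosure ℚ ℂ_[p]) :=
    algebraicClosure.isAlgebraic ℚ ℂ_[p]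
  have i0 : IsAlgClosed (algebraicClosure ℚ ℂ_[p]) :=
    (algebraicClosure.isAlgClosure ℚ ℂ_[p]).isAlgClosed
  have i2 : IsGalois ℚ (algebraicClosure ℚ ℂ_[p]) :=
    { to_isSeparable := inferInstance
      to_normal := normal_iff.2 fun x =>
        ⟨Algebra.IsIntegral.isIntegral x, IsAlgClosed.splits _⟩ }
  have hU : N'.fixingSubgroup.Normal := (InfiniteGalois.normal_iff_isGalois N').2 (by
    convert hG
    exact Subsingleton.elim _ _)
  have hopen : IsOpen ((N'.fixingSubgroup ⊔ N.fixingSubgroup : Subgroup (GalQ p)) : Set (GalQ p)) :=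
    Subgroup.isOpen_mono (H₁ := N.fixingSubgroup) le_sup_right N.fixingSubgroup_isOpen
  have hclosed : IsClosed
      ((N'.fixingSubgroup ⊔ N.fixingSubgroup : Subgroup (GalQ p)) : Set (GalQ p)) :=
    Subgroup.isClosed_of_isOpen _ hopen
  let W : ClosedSubgroup (GalQ p) := ⟨N'.fixingSubgroup ⊔ N.fixingSubgroup, hclosed⟩
  have hW := InfiniteGalois.fixingSubgroup_fixedField W
  have hmem : g₀ ∈ (IntermediateField.fixedField (W : Subgroup (GalQ p))).fixingSubgroup := by
    rw [IntermediateField.mem_fixingSubgroup_iff]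
    intro z hz
    rw [IntermediateField.mem_fixedField_iff] at hz
    apply hfix
    refine IntermediateField.mem_inf.2 ⟨?_, ?_⟩
    · rw [← InfiniteGalois.fixedField_fixingSubgroup N, IntermediateField.mem_fixedField_iff]
      exact fun f hf => hz f ((le_sup_right : N.fixingSubgroup ≤
        N'.fixingSubgroup ⊔ N.fixingSubgroup) hf)
    · rw [← InfiniteGalois.fixedField_fixingSubgroup N', IntermediateField.mem_fixedField_iff]
      exact fun f hf => hz f ((le_sup_left : N'.fixingSubgroup ≤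
        N'.fixingSubgroup ⊔ N.fixingSubgroup) hf)
  have hmem' : g₀ ∈ N'.fixingSubgroup ⊔ N.fixingSubgroup := by
    rw [hW] at hmem
    exact hmem
  have hmul := Subgroup.normal_mul N'.fixingSubgroup N.fixingSubgroup
  have hmem2 : g₀ ∈ ((N'.fixingSubgroup ⊔ N.fixingSubgroup : Subgroup (GalQ p)) :
      Set (GalQ p)) := hmem'
  rw [hmul] at hmem2
  obtain ⟨u, hu, v, hv, huv⟩ := Set.mem_mul.1 hmem2
  have hu' : ∀ z ∈ N', u z = z := (IntermediateField.mem_fixingSubgroup_iff _ _).1 hu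
  have hv' : ∀ z ∈ N, v z = z := (IntermediateField.mem_fixingSubgroup_iff _ _).1 hv
  refine ⟨u, fun z hz => ?_, hu'⟩
  rw [← huv, AlgEquiv.mul_apply, hv' z hz]

/-- The compositum of all embeddings of `H`. -/
noncomputable def hull (p : ℕ) [Fact p.Prime] (H : Type) [Field H] [NumberField H] :
    IntermediateField ℚ ℂ_[p] := ⨆ σ : H →+* ℂ_[p], (RingHom.toRatAlgHom σ).fieldRange

theorem hull_of {H : Type} [Field H] [NumberField H] :
    ∃ N : IntermediateField ℚ (algebraicClosure ℚ ℂ_[p]), FiniteDimensional ℚ N ∧ IsGalois ℚ N ∧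
      (∀ (σ : H →+* ℂ_[p]) y, toQb σ y ∈ N) ∧ ∀ z ∈ N, (z : ℂ_[p]) ∈ hull p H := by
  have i1 : Algebra.IsAlgebraic ℚ (algebraicClosure ℚ ℂ_[p]) :=
    algebraicClosure.isAlgebraic ℚ ℂ_[p]
  have i0 : IsAlgClosed (algebraicClosure ℚ ℂ_[p]) :=
    (algebraicClosure.isAlgClosure ℚ ℂ_[p]).isAlgClosed
  have hN : IsNormalClosure ℚ H (IntermediateField.normalClosure ℚ H (algebraicClosure ℚ ℂ_[p])) :=
    Algebra.IsAlgebraic.isNormalClosure_normalClosure (fun x => IsAlgClosed.splits _)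
  have hn : Normal ℚ (IntermediateField.normalClosure ℚ H (algebraicClosure ℚ ℂ_[p])) := hN.normal
  refine ⟨IntermediateField.normalClosure ℚ H (algebraicClosure ℚ ℂ_[p]), inferInstance, {}, ?_, ?_⟩
  · intro σ y
    exact (RingHom.toRatAlgHom (toQb σ)).fieldRange_le_normalClosure ⟨y, rfl⟩
  · have h1 : IntermediateField.normalClosure ℚ H (algebraicClosure ℚ ℂ_[p]) ≤
        (hull p H).comap (algebraicClosure ℚ ℂ_[p]).val := by
      refine iSup_le fun f => ?_
      rintro _ ⟨y, rfl⟩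
      have h2 : (RingHom.toRatAlgHom (((algebraicClosure ℚ ℂ_[p]).val.comp f :
          H →ₐ[ℚ] ℂ_[p]) : H →+* ℂ_[p])).fieldRange ≤ hull p H :=
        le_iSup (fun σ : H →+* ℂ_[p] => (RingHom.toRatAlgHom σ).fieldRange) _
      exact h2 ⟨y, rfl⟩
    exact fun z hz => h1 hz

/-- Characters of fields with a small intersection of the normal closures. -/
theorem differ_of_inf {K H K' H' : Type} [Field K] [Field H] [NumberField H] [Algebra K H]
    [Field K'] [Field H'] [NumberField H'] [Algebra K' H'] (χ : (H ≃ₐ[K] H) →* ℂ_[p]ˣ) (hχ : χ ≠ 1)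
    (σ : H →+* ℂ_[p]) (χ' : (H' ≃ₐ[K'] H') →* ℂ_[p]ˣ) (σ' : H' →+* ℂ_[p])
    (hinf : ∀ z ∈ hull p H ⊓ hull p H', ∃ k : K, σ (algebraMap K H k) = z) :
    Differ χ σ χ' σ' := by
  obtain ⟨h, hh⟩ : ∃ h, χ h ≠ 1 := by
    by_contra hcon
    push Not at hcon
    exact hχ (MonoidHom.ext hcon)
  obtain ⟨g₀, hg₀⟩ := exists_lift σ (h : H →+* H)
  obtain ⟨N, i1, i2, h1, h2⟩ := hull_of (p := p) (H := H)
  obtain ⟨N', i1', i2', h1', h2'⟩ := hull_of (p := p) (H := H')
  obtain ⟨g, h3, h4⟩ := exists_split N N' i2' g₀ (fun z hz => by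
    obtain ⟨k, hk⟩ := hinf z (IntermediateField.mem_inf.2 ⟨h2 z (IntermediateField.mem_inf.1 hz).1,
      h2' z (IntermediateField.mem_inf.1 hz).2⟩)
    have h5 := hg₀ (algebraMap K H k) z hk.symm
    apply Subtype.ext
    rw [h5, ← hk]
    congr 1
    exact h.commutes k)
  refine ⟨g, h, 1, ?_, ?_, by rwa [map_one]⟩
  · intro y z hz
    have h5 : z = toQb σ y := Subtype.ext hz
    subst h5
    rw [h3 _ (h1 σ y)]
    exact hg₀ y _ hz
  · intro y z hz
    have h5 : z = toQb σ' y := Subtype.ext hz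
    subst h5
    rw [h4 _ (h1' σ' y)]
    rfl

end Pool.Agent.Q244.TD
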