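import Pool.Agent.Q244.TD.Total
import Pool.Agent.Q244.LK.Std
import Mathlib.FieldTheory.LinearDisjoint

/-!
# Independent number fields: relations between logarithms of units with coefficients in a given space
-/

set_option autoImplicit false
set_option linter.unusedSectionVars false

namespace Pool.Agent.Q244.TD

open NumberField TensorProduct Module
open Pool.Agent.W289.SL Pool.Agent.W332.SL6
open Pool.Agent.W332.SL7 (QSub FinQ dimQ Bounds)
open Pool.Agent.Q244.LK

variable {p : ℕ} [hp : Fact p.Prime]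

/-- the image of a number field in `ℂ_p` -/
noncomputable def img {K : Type} [Field K] [NumberField K] (σ : K →+* ℂ_[p]) : IntermediateField ℚ ℂ_[p] :=
  (RingHom.toRatAlgHom σ).fieldRange

theorem mem_img {K : Type} [Field K] [NumberField K] (σ : K →+* ℂ_[p]) (x : K) : σ x ∈ img σ :=
  ⟨x, rfl⟩

theorem finrank_img {K : Type} [Field K] [NumberField K] (σ : K →+* ℂ_[p]) :
    finrank ℚ (img σ) = finrank ℚ K :=
  ((AlgEquiv.ofInjectiveField (RingHom.toRatAlgHom σ)).toLinearEquiv.finrank_eq).symm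

/-- the units of the image -/
noncomputable def ugrp {K : Type} [Field K] [NumberField K] (σ : K →+* ℂ_[p]) : Subgroup ℂ_[p]ˣ :=
  (Units.map ((σ : K →* ℂ_[p]).comp ((algebraMap (𝓞 K) K : 𝓞 K →+* K) : 𝓞 K →* K))).range

/-- the nonzero elements of a subfield -/
def fgrp (F : IntermediateField ℚ ℂ_[p]) : Subgroup ℂ_[p]ˣ where
  carrier := {x | (x : ℂ_[p]) ∈ F}
  mul_mem' := by
    intro a b ha hb
    simp only [Set.mem_ofPred_eq, Units.val_mul] at *
    exact mul_mem ha hb
  one_mem' := by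
    simp only [Set.mem_ofPred_eq, Units.val_one]
    exact one_mem F
  inv_mem' := by
    intro a ha
    simp only [Set.mem_ofPred_eq, Units.val_inv_eq_inv_val] at *
    exact inv_mem ha

theorem int_of_bot {K : Type} [Field K] [NumberField K] (σ : K →+* ℂ_[p]) (v : (𝓞 K)ˣ)
    (hx : σ ((v : 𝓞 K) : K) ∈ (⊥ : IntermediateField ℚ ℂ_[p])) :
    ∃ m : ℤ, ((v : 𝓞 K) : K) = m := by
  rw [IntermediateField.mem_bot] at hx
  obtain ⟨q, hq⟩ := hx
  have h0 : ((v : 𝓞 K) : K) = (q : K) := by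
    apply σ.injective
    rw [← hq, map_ratCast, eq_ratCast]
  have hi : IsIntegral ℤ (algebraMap ℚ K q) := by
    rw [eq_ratCast, ← h0]
    exact (v : 𝓞 K).2
  have h1 : IsIntegral ℤ q := (isIntegral_algebraMap_iff (algebraMap ℚ K).injective).1 hi
  obtain ⟨m, hm⟩ := IsIntegrallyClosed.isIntegral_iff.1 h1
  refine ⟨m, ?_⟩
  rw [h0, ← hm]
  simp

theorem torsion_of_bot {K : Type} [Field K] [NumberField K] (σ : K →+* ℂ_[p]) {x : ℂ_[p]ˣ}
    (hx : x ∈ ugrp σ) (hb : (x : ℂ_[p]) ∈ (⊥ : IntermediateField ℚ ℂ_[p])) : x ^ 2 = 1 := by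
  obtain ⟨u, rfl⟩ := hx
  obtain ⟨m, hm⟩ := int_of_bot σ u hb
  have hb' : σ (((u⁻¹ : (𝓞 K)ˣ) : 𝓞 K) : K) ∈ (⊥ : IntermediateField ℚ ℂ_[p]) := by
    have h1 := inv_mem hb
    rw [← Units.val_inv_eq_inv_val, ← map_inv] at h1
    exact h1
  obtain ⟨m', hm'⟩ := int_of_bot σ u⁻¹ hb'
  have h1 : (m : K) * m' = 1 := by
    rw [← hm, ← hm', ← map_mul, ← Units.val_mul, mul_inv_cancel, Units.val_one, map_one]
  have h2 : m * m' = 1 := by exact_mod_cast h1
  have h3 : m ^ 2 = 1 := by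
    rcases Int.eq_one_or_neg_one_of_mul_eq_one h2 with h | h <;> rw [h] <;> norm_num
  have h4 : u ^ 2 = 1 := by
    apply Units.ext
    apply RingOfIntegers.ext
    have h5 : (((u ^ 2 : (𝓞 K)ˣ) : 𝓞 K) : K) = (((u : 𝓞 K) : K)) ^ 2 := by
      rw [Units.val_pow_eq_pow_val]
      exact map_pow (algebraMap (𝓞 K) K) _ _
    have h6 : (((1 : (𝓞 K)ˣ) : 𝓞 K) : K) = 1 := by
      rw [Units.val_one]
      exact map_one (algebraMap (𝓞 K) K)
    rw [h5, h6, hm]
    exact_mod_cast h3
  rw [← map_pow, h4, map_one]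

section family

variable {M : ℕ} (K : Fin M → Type) [∀ k, Field (K k)] [∀ k, NumberField (K k)]

/-- the compositum of images -/
noncomputable def cmp (σ : (k : Fin M) → K k →+* ℂ_[p]) (S : Finset (Fin M)) :
    IntermediateField ℚ ℂ_[p] :=
  S.sup (fun j => img (σ j))

/-- the images meet the compositum of the preceding ones in `ℚ` -/
def Tower (σ : (k : Fin M) → K k →+* ℂ_[p]) : Prop :=
  ∀ k, img (σ k) ⊓ cmp K σ (Finset.univ.filter (fun j => j < k)) = ⊥

theorem finrank_sup (σ : (k : Fin M) → K k →+* ℂ_[p])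
    (hco : ∀ j k, j ≠ k → (finrank ℚ (K j)).Coprime (finrank ℚ (K k))) (S : Finset (Fin M)) :
    finrank ℚ (cmp K σ S) = ∏ j ∈ S, finrank ℚ (K j) := by
  classical
  induction S using Finset.induction_on with
  | empty =>
    have h0 : cmp K σ ∅ = ⊥ := Finset.sup_empty
    rw [h0, Finset.prod_empty]
    exact IntermediateField.finrank_bot
  | insert a S ha ih =>
    have h0 : cmp K σ (insert a S) = img (σ a) ⊔ cmp K σ S := Finset.sup_insert
    rw [h0, Finset.prod_insert ha]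
    have h1 : (img (σ a)).LinearDisjoint (cmp K σ S) := by
      apply IntermediateField.LinearDisjoint.of_finrank_coprime
      rw [ih, finrank_img]
      exact Nat.Coprime.prod_right fun j hj => hco a j fun h => ha (h ▸ hj)
    rw [h1.finrank_sup, ih, finrank_img]

theorem inf_of_coprime (σ : (k : Fin M) → K k →+* ℂ_[p])
    (hco : ∀ j k, j ≠ k → (finrank ℚ (K j)).Coprime (finrank ℚ (K k))) (S : Finset (Fin M))
    (k : Fin M) (hk : k ∉ S) : img (σ k) ⊓ cmp K σ S = ⊥ := by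
  have h1 : (img (σ k)).LinearDisjoint (cmp K σ S) := by
    apply IntermediateField.LinearDisjoint.of_finrank_coprime
    rw [finrank_sup K σ hco, finrank_img]
    exact Nat.Coprime.prod_right fun j hj => hco k j fun h => hk (h ▸ hj)
  exact h1.inf_eq_bot

theorem tower_of_coprime (σ : (k : Fin M) → K k →+* ℂ_[p])
    (hco : ∀ j k, j ≠ k → (finrank ℚ (K j)).Coprime (finrank ℚ (K k))) : Tower K σ :=
  fun k => inf_of_coprime K σ hco _ k (by simp)

variable {L : ℂ_[p] → ℂ_[p]} (hL : IsIwasawaLog p L)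

include hL in
/-- **Total number of relations over independent fields.** -/
theorem bounds_fields (A : QSub ℂ_[p]) (hA : FinQ A) (σ : (k : Fin M) → K k →+* ℂ_[p])
    (hσ : Tower K σ) (n r : Fin M → ℕ) (ε : (k : Fin M) → Fin (n k) → (𝓞 (K k))ˣ)
    (hε : ∀ k, ∀ m : Fin (n k) → ℤ, ∏ i, ε k i ^ m i = 1 → m = 0)
    (a : (k : Fin M) → Fin (r k) → Fin (n k) → ℂ_[p]) (ha : ∀ k l i, a k l i ∈ A)
    (hli : ∀ k, LinearIndependent ℂ_[p] (a k))
    (h0 : ∀ k l, ∑ i, a k l i * L (σ k ((ε k i : 𝓞 (K k)) : K k)) = 0) :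
    Bounds A (∑ k, r k) := by
  classical
  let φ : (k : Fin M) → (𝓞 (K k))ˣ →* ℂ_[p]ˣ := fun k =>
    Units.map ((σ k : K k →* ℂ_[p]).comp ((algebraMap (𝓞 (K k)) (K k) : 𝓞 (K k) →+* K k) :
      𝓞 (K k) →* K k))
  have hφ : ∀ k, Function.Injective (φ k) := by
    intro k u v h
    have h1 := congrArg (fun z : ℂ_[p]ˣ => (z : ℂ_[p])) h
    apply Units.ext
    apply RingOfIntegers.ext
    exact (σ k).injective h1
  have hM := mind_sigma (fun k i => φ k (ε k i)) (fun k => ugrp (σ k))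
    (fun k => fgrp (cmp K σ (Finset.univ.filter (fun j => j < k))))
    (fun k i => ⟨ε k i, rfl⟩) (fun k m hm => hε k m (hφ k (by
      rw [map_prod, map_one, ← hm]
      refine Finset.prod_congr rfl fun i _ => ?_
      rw [map_zpow]))) (by
      rintro j k hjk _ ⟨u, rfl⟩
      have h1 : img (σ j) ≤ cmp K σ (Finset.univ.filter (fun j => j < k)) :=
        Finset.le_sup (f := fun j => img (σ j)) (Finset.mem_filter.2 ⟨Finset.mem_univ j, hjk⟩)
      exact h1 (mem_img (σ j) _)) (by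
      intro k x hx hE
      refine ⟨2, by norm_num, torsion_of_bot (σ k) hx ?_⟩
      rw [← hσ k]
      refine IntermediateField.mem_inf.2 ⟨?_, hE⟩
      obtain ⟨u, rfl⟩ := hx
      exact mem_img (σ k) _)
  refine bounds_blocks hL A hA (fun k i => σ k ((ε k i : 𝓞 (K k)) : K k))
    (fun k i => nearU_unit (σ k) (ε k i)) ?_ a ha hli h0
  intro m hm
  refine hM m ?_
  apply Units.ext
  rw [Units.val_one, Units.coe_prod, ← hm]
  refine Finset.prod_congr rfl fun q _ => ?_
  rw [Units.val_zpow_eq_zpow_val]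
  rfl

end family

end Pool.Agent.Q244.TD
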