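import Pool.Agent.Q244.TD.Total
import Pool.Agent.Q244.LK.Std

/-!
# Relations between `p`-adic logarithms of elements of groups, with coefficients in a given space
-/

set_option autoImplicit false
set_option linter.unusedSectionVars false

namespace Pool.Agent.Q244.TD

open NumberField TensorProduct Module
open Pool.Agent.W289.SL Pool.Agent.W332.SL6
open Pool.Agent.W254.PA (Hyp LtE LgP exists_pow_near norm_ic ic)
open Pool.Agent.W332.SL7 (QSub FinQ dimQ Bounds)
open Pool.Agent.Q244.LK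

variable {p : ℕ} [hp : Fact p.Prime]

/-- Relations with coefficients which are linearly independent over `ℚ`. -/
theorem dual_gen {G : Type*} [CommGroup G] (H : Subgroup G) (l : G →* Multiplicative ℂ_[p])
    {A : QSub ℂ_[p]} {n : ℕ} (ε : Fin n → G) (hεH : ∀ i, ε i ∈ H) (a : Fin n → ℂ_[p])
    (hε : ∀ m : Fin n → ℤ, ∏ i, ε i ^ m i = 1 → m = 0) (ha : ∀ i, a i ∈ A) (ha0 : a ≠ 0)
    (hrel : ∑ i, a i * (l (ε i)).toAdd = 0) :
    ∃ (s : ℕ) (y : Fin s → G) (c : Fin s → ℂ_[p]), (∀ j, y j ∈ H) ∧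
      (∃ j, ∀ m : ℕ, 1 ≤ m → y j ^ m ≠ 1) ∧ (∀ j, c j ∈ A) ∧ RInd c ∧
      ∑ j, c j * (l (y j)).toAdd = 0 := by
  classical
  let W : Submodule ℚ ℂ_[p] := Submodule.span ℚ (Set.range a)
  have hWfin : FiniteDimensional ℚ W := FiniteDimensional.span_of_finite ℚ (Set.finite_range a)
  have hWA : ∀ z ∈ W, z ∈ A := by
    intro z hz
    refine Submodule.span_induction (p := fun z _ => z ∈ A) ?_ (zero_mem _)
      (fun _ _ _ _ h1 h2 => add_mem h1 h2) ?_ hz
    · rintro _ ⟨i, rfl⟩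
      exact ha i
    · intro q z _ hz
      rw [Pool.Agent.Q244.OC.qsmul (k := algebraicClosure ℚ ℂ_[p])]
      exact A.smul_mem _ hz
  let b := Module.finBasis ℚ W
  let q : Fin n → Fin (finrank ℚ W) → ℚ := fun i j =>
    b.repr ⟨a i, Submodule.subset_span ⟨i, rfl⟩⟩ j
  have hsum : ∀ i, a i = ∑ j, (q i j : ℂ_[p]) * ((b j : W) : ℂ_[p]) := by
    intro i
    have := congrArg (fun z : W => (z : ℂ_[p])) (b.sum_repr ⟨a i, Submodule.subset_span ⟨i, rfl⟩⟩)
    simp only at this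
    conv_lhs => rw [← this]
    push_cast
    refine Finset.sum_congr rfl fun j _ => ?_
    rw [Rat.smul_def]
  let N : ℕ := ∏ i, ∏ j, (q i j).den
  have hN : N ≠ 0 := Finset.prod_ne_zero_iff.2 fun i _ =>
    Finset.prod_ne_zero_iff.2 fun j _ => (q i j).den_nz
  have hNq : (N : ℚ) ≠ 0 := by exact_mod_cast hN
  have hm : ∀ i j, ∃ m : ℤ, (m : ℚ) = N * q i j := by
    intro i j
    obtain ⟨t, ht⟩ : (q i j).den ∣ N :=
      (Finset.dvd_prod_of_mem (fun j => (q i j).den) (Finset.mem_univ j)).trans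
        (Finset.dvd_prod_of_mem (fun i => ∏ j, (q i j).den) (Finset.mem_univ i))
    refine ⟨t * (q i j).num, ?_⟩
    rw [ht]
    push_cast
    have h5 : q i j * (q i j).den = (q i j).num := Rat.mul_den_eq_num _
    linear_combination (-(t : ℚ)) * h5
  choose m hm using hm
  have hind : ∀ w : Fin (finrank ℚ W) → ℚ, ∑ j, (w j : ℂ_[p]) * ((b j : W) : ℂ_[p]) = 0 →
      w = 0 := by
    intro w hw
    have h3 := (Fintype.linearIndependent_iff.1
      (b.linearIndependent.map' W.subtype (Submodule.ker_subtype _))) w (by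
        rw [← hw]
        refine Finset.sum_congr rfl fun j _ => ?_
        rw [Rat.smul_def]
        rfl)
    funext j
    exact h3 j
  have hNa : ∀ i, (N : ℂ_[p]) * a i = ∑ j, (m i j : ℂ_[p]) * ((b j : W) : ℂ_[p]) := by
    intro i
    rw [hsum i, Finset.mul_sum]
    refine Finset.sum_congr rfl fun j _ => ?_
    have : ((m i j : ℤ) : ℂ_[p]) = N * (q i j : ℂ_[p]) := by
      exact_mod_cast congrArg (Rat.cast : ℚ → ℂ_[p]) (hm i j)
    rw [this, mul_assoc]
  refine ⟨finrank ℚ W, fun j => ∏ i, ε i ^ m i j, fun j => ((b j : W) : ℂ_[p]), ?_, ?_, ?_, hind, ?_⟩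
  · intro j
    exact Subgroup.prod_mem _ fun i _ => Subgroup.zpow_mem _ (hεH i) _
  · -- an exponent does not vanish
    obtain ⟨i₀, hi₀⟩ := Function.ne_iff.1 ha0
    obtain ⟨j₀, hj₀⟩ : ∃ j, m i₀ j ≠ 0 := by
      by_contra hcon
      push Not at hcon
      have h6 := hNa i₀
      rw [Finset.sum_eq_zero (fun j _ => by rw [hcon j]; simp)] at h6
      rcases mul_eq_zero.1 h6 with h7 | h7
      · exact hN (by exact_mod_cast h7)
      · exact hi₀ h7
    refine ⟨j₀, fun M hM h1 => ?_⟩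
    have h2 := hε (fun i => m i j₀ * M) (by
      rw [← h1, ← Finset.prod_pow]
      refine Finset.prod_congr rfl fun i _ => ?_
      rw [zpow_mul, zpow_natCast])
    have h3 := congrFun h2 i₀
    rcases mul_eq_zero.1 h3 with h4 | h4
    · exact hj₀ h4
    · have : M = 0 := by exact_mod_cast h4
      omega
  · intro j
    exact hWA _ (b j).2
  · have h1 : ∀ j, (l (∏ i, ε i ^ m i j)).toAdd = ∑ i, (m i j : ℂ_[p]) * (l (ε i)).toAdd := by
      intro j
      rw [map_prod, toAdd_prod]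
      refine Finset.sum_congr rfl fun i _ => ?_
      rw [map_zpow, toAdd_zpow, zsmul_eq_mul]
    simp only [h1, Finset.mul_sum]
    rw [Finset.sum_comm]
    have h2 : ∀ i, ∑ j, ((b j : W) : ℂ_[p]) * ((m i j : ℂ_[p]) * (l (ε i)).toAdd) =
        N * (a i * (l (ε i)).toAdd) := by
      intro i
      rw [← mul_assoc, hNa, Finset.sum_mul]
      exact Finset.sum_congr rfl fun j _ => by ring
    simp only [h2]
    rw [← Finset.mul_sum, hrel, mul_zero]

variable {L : ℂ_[p] → ℂ_[p]} (hL : IsIwasawaLog p L)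

include hL

/-- **One finitely generated group.** -/
theorem group_of_space (A : QSub ℂ_[p]) [FiniteDimensional (algebraicClosure ℚ ℂ_[p]) A] :
    ∃ (r : ℕ) (w : Fin r → ℂ_[p]), (∀ j, NearU (w j)) ∧
      ∀ (n : ℕ) (c u : Fin n → ℂ_[p]), (∀ i, c i ∈ A) → RInd c → (∀ i, NearU (u i)) →
        ∑ i, c i * L (u i) = 0 →
        ∀ i, ∃ m : ℕ, 1 ≤ m ∧ ∃ e : Fin r → ℤ, u i ^ m = ∏ j, w j ^ e j := by
  classical
  obtain ⟨Λ', h1, h2, h3⟩ := relations (hypLam hL) (bakerH hL) A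
  let b := Module.finBasis ℚ Λ'
  have hb : ∀ j, ∃ w, NearU w ∧ ((b j : Λ') : ℂ_[p]) = L w := fun j => h1 (b j).2
  choose w hw hbw using hb
  refine ⟨_, w, hw, ?_⟩
  intro n c u hc hci hu h0 i
  have hz := h3 n c (fun i => L (u i)) hc (fun i => ⟨u i, hu i, rfl⟩) h0 (fun w hw => hci w (by
    rw [← hw]
    exact Finset.sum_congr rfl fun i _ => (Rat.smul_def _ _).symm)) i
  -- the coordinates of the logarithm
  set q : Fin (finrank ℚ Λ') → ℚ := fun j => b.repr ⟨L (u i), hz⟩ j with hq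
  have hsum : L (u i) = ∑ j, (q j : ℂ_[p]) * L (w j) := by
    have := congrArg (fun z : Λ' => (z : ℂ_[p])) (b.sum_repr ⟨L (u i), hz⟩)
    simp only at this
    rw [← this]
    push_cast
    refine Finset.sum_congr rfl fun j _ => ?_
    rw [hbw, Rat.smul_def]
  let N : ℕ := ∏ j, (q j).den
  have hN : N ≠ 0 := Finset.prod_ne_zero_iff.2 fun j _ => (q j).den_nz
  have hm : ∀ j, ∃ m : ℤ, (m : ℚ) = N * q j := by
    intro j
    obtain ⟨t, ht⟩ : (q j).den ∣ N := Finset.dvd_prod_of_mem _ (Finset.mem_univ j)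
    refine ⟨t * (q j).num, ?_⟩
    rw [ht]
    push_cast
    have h4 : ((q j).den : ℚ) ≠ 0 := by exact_mod_cast (q j).den_nz
    have h5 : q j * (q j).den = (q j).num := Rat.mul_den_eq_num _
    linear_combination (-(t : ℚ)) * h5
  choose m hm using hm
  set P : ℂ_[p] := ∏ j, w j ^ m j with hP
  have hPn : NearU P := nearU_prod _ _ fun j _ => nearU_zpow (hw j) _
  have hLP : L P = N * L (u i) := by
    rw [hP, log_prod hL _ _ fun j _ => (nearU_zpow (hw j) _).ne, hsum, Finset.mul_sum]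
    refine Finset.sum_congr rfl fun j _ => ?_
    rw [log_zpow hL (hw j).ne]
    have : ((m j : ℤ) : ℂ_[p]) = N * (q j : ℂ_[p]) := by exact_mod_cast congrArg (Rat.cast : ℚ → ℂ_[p]) (hm j)
    rw [this, mul_assoc]
  have hv : NearU (u i ^ N * P⁻¹) := nearU_mul (nearU_pow (hu i) N) (nearU_inv hPn)
  have hLv : L (u i ^ N * P⁻¹) = 0 := by
    rw [hL.mul _ _ (nearU_pow (hu i) N).ne (nearU_inv hPn).ne, hL.pow (hu i).ne]
    have h4 := log_zpow hL hPn.ne (-1)
    rw [zpow_neg_one] at h4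
    rw [h4, hLP]
    push_cast
    ring
  obtain ⟨M, hM, hM1⟩ := exists_pow_one hL hv hLv
  refine ⟨N * M, Nat.one_le_iff_ne_zero.2 (Nat.mul_ne_zero hN (by omega)), ?_⟩
  have h5 : u i ^ (N * M) = P ^ M := by
    rw [mul_pow, inv_pow, ← pow_mul] at hM1
    have h6 := pow_ne_zero M hPn.ne
    field_simp at hM1
    exact hM1
  refine ⟨fun j => m j * M, ?_⟩
  rw [h5, hP, ← Finset.prod_pow]
  refine Finset.prod_congr rfl fun j _ => ?_
  rw [zpow_mul, zpow_natCast]


/-- the logarithm as a homomorphism -/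
noncomputable def logM {K : Type} [Field K] (σ : K →+* ℂ_[p]) : Kˣ →* Multiplicative ℂ_[p] where
  toFun x := Multiplicative.ofAdd (L (σ x))
  map_one' := by
    rw [Units.val_one, map_one, log_one hL]
    rfl
  map_mul' x y := by
    rw [Units.val_mul, map_mul, hL.mul _ _ (by simp) (by simp)]
    rfl

/-- **Independent subgroups.** -/
theorem bounds_groups (A : QSub ℂ_[p]) (hA : FinQ A) {K : Type} [Field K] (σ : K →+* ℂ_[p])
    {M : ℕ} (H : Fin M → Subgroup Kˣ) (hH : ∀ k, ∀ x ∈ H k, NearU (σ x))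
    (hT : ∀ k, ∀ x ∈ H k, x ∈ (⨆ j : {j : Fin M // j < k}, H j) → ∃ N : ℕ, 1 ≤ N ∧ x ^ N = 1)
    (n r : Fin M → ℕ) (ε : (k : Fin M) → Fin (n k) → Kˣ) (hεH : ∀ k i, ε k i ∈ H k)
    (hε : ∀ k, ∀ m : Fin (n k) → ℤ, ∏ i, ε k i ^ m i = 1 → m = 0)
    (a : (k : Fin M) → Fin (r k) → Fin (n k) → ℂ_[p]) (ha : ∀ k l i, a k l i ∈ A)
    (hli : ∀ k, LinearIndependent ℂ_[p] (a k))
    (h0 : ∀ k l, ∑ i, a k l i * L (σ (ε k i)) = 0) : Bounds A (∑ k, r k) := by
  classical
  have hM := mind_sigma ε H (fun k => ⨆ j : {j : Fin M // j < k}, H j) hεH hε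
    (fun j k hjk => le_iSup (fun j : {j : Fin M // j < k} => H j) ⟨j, hjk⟩) hT
  refine bounds_blocks hL A hA (fun k i => σ (ε k i)) (fun k i => hH k _ (hεH k i)) ?_ a ha hli h0
  intro m hm
  refine hM m ?_
  apply Units.ext
  apply σ.injective
  rw [Units.val_one, map_one, Units.coe_prod, map_prod, ← hm]
  refine Finset.prod_congr rfl fun q _ => ?_
  rw [Units.val_zpow_eq_zpow_val, map_zpow₀]

end Pool.Agent.Q244.TD
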