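import Pool.Agent.Q244.TD.Min

/-!
# Leopoldt kernels of all number fields as spaces of invariants
-/

set_option autoImplicit false
set_option linter.unusedSectionVars false
namespace Pool.Agent.Q244.TD

open NumberField TensorProduct Module
open NumberField.Units NumberField.Units.dirichletUnitTheorem
open Pool.Agent.W289.SL Pool.Agent.W332.SL6
open Pool.Agent.W254.PA (exists_theta)
open Pool.Agent.W332.SL7 (QSub FinQ dimQ Bounds Coords push_injective)
open Pool.Agent.Q244.LK

variable {p : ℕ} [hp : Fact p.Prime]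
variable {L : ℂ_[p] → ℂ_[p]} (hL : IsIwasawaLog p L)

/-- the automorphisms of `F` which fix the elements of `F` in the image of `σ` -/
def fixer {K : Type} [Field K] (F : IntermediateField ℚ ℂ_[p]) (σ : K →+* ℂ_[p]) :
    Set (F ≃ₐ[ℚ] F) := {γ | ∀ y : F, (y : ℂ_[p]) ∈ σ.range → γ y = y}

/-- the elements of the kernel space which are fixed by these automorphisms -/
noncomputable def inv (A : QSub ℂ_[p]) (F : IntermediateField ℚ ℂ_[p]) [NumberField F] {K : Type}
    [Field K] (σ : K →+* ℂ_[p]) : Submodule ℂ_[p] (UM p F) where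
  carrier := {x | x ∈ KSp hL A F ∧ ∀ γ ∈ fixer F σ, push (γ : F →+* F) x = x}
  add_mem' := by
    rintro x y ⟨hx, hx'⟩ ⟨hy, hy'⟩
    exact ⟨add_mem hx hy, fun γ hγ => by rw [map_add, hx' γ hγ, hy' γ hγ]⟩
  zero_mem' := ⟨zero_mem _, fun γ _ => map_zero _⟩
  smul_mem' := by
    rintro c x ⟨hx, hx'⟩
    exact ⟨Submodule.smul_mem _ _ hx, fun γ hγ => by rw [map_smul, hx' γ hγ]⟩

theorem mem_inv {A : QSub ℂ_[p]} {F : IntermediateField ℚ ℂ_[p]} [NumberField F] {K : Type}
    [Field K] {σ : K →+* ℂ_[p]} {x : UM p F} :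
    x ∈ inv hL A F σ ↔ x ∈ KSp hL A F ∧ ∀ γ ∈ fixer F σ, push (γ : F →+* F) x = x := Iff.rfl

theorem push_inj {K H : Type} [Field K] [NumberField K] [Field H] [NumberField H] (f : K →+* H) :
    Function.Injective (push (p := p) f) := by
  obtain ⟨θ⟩ := exists_theta p
  rw [← LinearMap.ker_eq_bot, LinearMap.ker_eq_bot']
  exact fun x hx => push_injective θ _ x hx

/-- descent of a kernel element from `F` to a subfield -/
theorem descend_fix {A : QSub ℂ_[p]} {F : Type} [Field F] [NumberField F] (K₂ : IntermediateField ℚ F)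
    {x : UM p F} (hx : InKer hL A x)
    (hfix : ∀ γ : F ≃ₐ[ℚ] F, (∀ y ∈ K₂, γ y = y) → push (γ : F →+* F) x = x) [IsGalois ℚ F] :
    ∃ x₂ : UM p K₂, InKer hL A x₂ ∧ push (algebraMap K₂ F) x₂ = x := by
  classical
  have hval : ∀ (u : (𝓞 F)ˣ) (k : ℕ),
      (((u ^ k : (𝓞 F)ˣ) : 𝓞 F) : F) = ((u : 𝓞 F) : F) ^ k := by
    intro u k
    rw [Units.val_pow_eq_pow_val]
    exact map_pow (algebraMap (𝓞 F) F) _ _
  obtain ⟨n, c, u, hc, hci, rfl⟩ := rep A x hx.1
  have hci' : RInd c := fun w hw => hci w (by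
    rw [← hw]
    exact Finset.sum_congr rfl fun i _ => Rat.smul_def _ _)
  have hpow : ∀ i, ∃ m : ℕ, 1 ≤ m ∧ (((Additive.toMul (u i) : (𝓞 F)ˣ) : 𝓞 F) : F) ^ m ∈ K₂ := by
    intro i
    have h4 : ∀ γ : {γ : F ≃ₐ[ℚ] F // ∀ y ∈ K₂, γ y = y}, ∃ N : ℕ, 1 ≤ N ∧
        N • uMap (((γ : F ≃ₐ[ℚ] F) : F →+* F)) (u i) = N • u i := by
      intro γ
      have h5 := hfix γ γ.2
      rw [map_sum] at h5
      obtain ⟨N, hN, h6⟩ := tors_of_zero c
        (fun j => uMap (((γ : F ≃ₐ[ℚ] F) : F →+* F)) (u j) - u j) hci' (by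
          simp only [TensorProduct.tmul_sub]
          rw [Finset.sum_sub_distrib, sub_eq_zero]
          exact h5) i
      refine ⟨N, hN, ?_⟩
      rw [← sub_eq_zero, ← nsmul_sub]
      exact h6
    choose N hN hNy using h4
    have : Fintype {γ : F ≃ₐ[ℚ] F // ∀ y ∈ K₂, γ y = y} := Fintype.ofFinite _
    let M : ℕ := ∏ γ, N γ
    have hM : 1 ≤ M := Nat.one_le_iff_ne_zero.2
      (Finset.prod_ne_zero_iff.2 fun γ _ => by have := hN γ; omega)
    refine ⟨M, hM, ?_⟩
    set z : F := (((Additive.toMul (u i) : (𝓞 F)ˣ) : 𝓞 F) : F) with hz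
    have h9 : z ^ M ∈ IntermediateField.fixedField (IntermediateField.fixingSubgroup K₂) := by
      rw [IntermediateField.mem_fixedField_iff]
      intro γ hγ
      have hγ' : ∀ y ∈ K₂, γ y = y := (IntermediateField.mem_fixingSubgroup_iff K₂ γ).1 hγ
      obtain ⟨c, hc⟩ := Finset.dvd_prod_of_mem N (Finset.mem_univ ⟨γ, hγ'⟩)
      have h8 : γ (z ^ N ⟨γ, hγ'⟩) = z ^ N ⟨γ, hγ'⟩ := by
        have h7 := congrArg (fun w : Additive (𝓞 F)ˣ => (((Additive.toMul w : (𝓞 F)ˣ) : 𝓞 F) : F))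
          (hNy ⟨γ, hγ'⟩)
        simp only [toMul_nsmul, hval] at h7
        rw [map_pow]
        exact h7
      show γ (z ^ ∏ γ, N γ) = z ^ ∏ γ, N γ
      rw [hc, pow_mul, map_pow, h8]
    rwa [IsGalois.fixedField_fixingSubgroup] at h9
  obtain ⟨x₂, h1, h2⟩ := descend K₂ c u hc hpow
  refine ⟨x₂, ⟨h1, fun τ => ?_⟩, h2⟩
  obtain ⟨t, ht⟩ := exists_ext' (algebraMap K₂ F) τ
  rw [← ht, ← logLin_push, h2]
  exact hx.2 t

/-- **The dimension for `K` is the dimension of a space of invariants.** -/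
theorem finrank_eq_inv (A : QSub ℂ_[p]) {F : IntermediateField ℚ ℂ_[p]} [NumberField F]
    [IsGalois ℚ F] (hF : PowersAll L A F) (K : Type) [Field K] [NumberField K]
    (σ : K →+* ℂ_[p]) : finrank ℂ_[p] (KSp hL A K) = finrank ℂ_[p] (inv hL A F σ) := by
  classical
  have i2 : Module.Finite ℂ_[p] (UM p F) := um_finite
  have hg : ∀ γ : F ≃ₐ[ℚ] F, γ ∈ fixer F σ → ((γ : F →+* F)).comp (rst σ F) = rst σ F := by
    intro γ hγ
    ext y
    exact congrArg _ (hγ (rst σ F y) ⟨(y : K), rfl⟩)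
  have h1 : KSp hL A K = (KSp hL A (sub σ F)).map (push (algebraMap (sub σ F) K)) := by
    apply le_antisymm
    · unfold KSp
      rw [Submodule.span_le]
      intro x hx
      obtain ⟨x₁, h2, h3⟩ := descend_all hL hF σ hx
      exact ⟨x₁, Submodule.subset_span h2, h3⟩
    · unfold KSp
      rw [Submodule.map_span, Submodule.span_le]
      rintro _ ⟨x, hx, rfl⟩
      exact Submodule.subset_span (InKer.push hx _)
  -- elements from the subfield
  let K₂ : IntermediateField ℚ F := (RingHom.toRatAlgHom (rst σ F)).fieldRange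
  have hK₂ : ∀ γ : F ≃ₐ[ℚ] F, (∀ y ∈ K₂, γ y = y) ↔ γ ∈ fixer F σ := by
    intro γ
    constructor
    · intro h y hy
      apply h
      obtain ⟨z, hz⟩ := hy
      refine ⟨⟨z, ?_⟩, ?_⟩
      · rw [mem_sub, hz]
        exact y.2
      · exact Subtype.ext hz
    · rintro h _ ⟨z, rfl⟩
      exact h _ ⟨(z : K), rfl⟩
  have h2 : ∀ x : UM p F, InKer hL A x → (∀ γ ∈ fixer F σ, push (γ : F →+* F) x = x) →
      x ∈ (KSp hL A (sub σ F)).map (push (rst σ F)) := by
    intro x hx hfix
    obtain ⟨x₂, h3, h4⟩ := descend_fix hL K₂ hx fun γ hγ => hfix γ ((hK₂ γ).1 hγ)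
    let e : sub σ F ≃ₐ[ℚ] K₂ := AlgEquiv.ofInjectiveField (RingHom.toRatAlgHom (rst σ F))
    refine ⟨push (e.symm : K₂ →+* sub σ F) x₂, Submodule.subset_span (InKer.push h3 _), ?_⟩
    rw [push_push, ← h4]
    congr 2
    ext y
    obtain ⟨z, hz⟩ := e.surjective y
    rw [← hz]
    show ((rst σ F (e.symm (e z)) : F) : ℂ_[p]) = _
    rw [e.symm_apply_apply]
    rfl
  have h3 : (KSp hL A (sub σ F)).map (push (rst σ F)) = inv hL A F σ := by
    apply le_antisymm
    · rintro _ ⟨x, hx, rfl⟩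
      refine ⟨?_, fun γ hγ => ?_⟩
      · have h4 : (KSp hL A (sub σ F)).map (push (rst σ F)) ≤ KSp hL A F := by
          unfold KSp
          rw [Submodule.map_span, Submodule.span_le]
          rintro _ ⟨x, hx, rfl⟩
          exact Submodule.subset_span (InKer.push hx _)
        exact h4 ⟨x, hx, rfl⟩
      · rw [push_push, hg γ hγ]
    · -- averaging
      rintro x ⟨hx, hfix⟩
      let S : Finset (F ≃ₐ[ℚ] F) := Finset.univ.filter (· ∈ fixer F σ)
      have hSmem : ∀ γ, γ ∈ S ↔ γ ∈ fixer F σ := fun γ => by simp [S]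
      have h1S : (1 : F ≃ₐ[ℚ] F) ∈ S := (hSmem _).2 fun y _ => rfl
      have hS0 : ((S.card : ℕ) : ℂ_[p]) ≠ 0 := by
        exact_mod_cast Finset.card_ne_zero.2 ⟨1, h1S⟩
      have hmul : ∀ γ ∈ S, ∀ δ ∈ S, γ * δ ∈ S := by
        intro γ hγ δ hδ
        rw [hSmem] at *
        intro y hy
        show γ (δ y) = y
        rw [hδ y hy, hγ y hy]
      have hinv : ∀ γ ∈ S, γ⁻¹ ∈ S := by
        intro γ hγ
        rw [hSmem] at *
        intro y hy
        show γ.symm y = y
        rw [AlgEquiv.symm_apply_eq, hγ y hy]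
      let e : UM p F →ₗ[ℂ_[p]] UM p F := ∑ γ ∈ S, push (γ : F →+* F)
      have he : ∀ y, e y = ∑ γ ∈ S, push (γ : F →+* F) y := fun y => by
        simp only [e, LinearMap.sum_apply]
      have key : ∀ y ∈ KSp hL A F, e y ∈ (KSp hL A (sub σ F)).map (push (rst σ F)) := by
        intro y hy
        refine Submodule.span_induction
          (p := fun y _ => e y ∈ (KSp hL A (sub σ F)).map (push (rst σ F))) ?_ ?_ ?_ ?_ hy
        · intro y hy
          apply h2
          · rw [he]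
            refine ⟨AddSubmonoid.sum_mem _ fun γ _ => (InKer.push hy _).1, fun τ => ?_⟩
            rw [map_sum]
            exact Finset.sum_eq_zero fun γ _ => (InKer.push hy _).2 τ
          · intro δ hδ
            rw [he, map_sum]
            have hδS := (hSmem δ).2 hδ
            refine Finset.sum_bij' (fun γ _ => δ * γ) (fun γ _ => δ⁻¹ * γ)
              (fun γ hγ => hmul _ hδS _ hγ) (fun γ hγ => hmul _ (hinv _ hδS) _ hγ)
              (fun γ _ => by group) (fun γ _ => by group) (fun γ _ => ?_)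
            rw [push_mul]
        · rw [map_zero]
          exact zero_mem _
        · intro y z _ _ h1 h2
          rw [map_add]
          exact add_mem h1 h2
        · intro c y _ h1
          rw [map_smul]
          exact Submodule.smul_mem _ _ h1
      have h4 := key x hx
      have h5 : e x = (S.card : ℂ_[p]) • x := by
        rw [he, Finset.sum_congr rfl fun γ hγ => hfix γ ((hSmem γ).1 hγ), Finset.sum_const,
          Nat.cast_smul_eq_nsmul]
      rw [h5] at h4
      have h6 := Submodule.smul_mem _ ((S.card : ℂ_[p])⁻¹) h4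
      rwa [smul_smul, inv_mul_cancel₀ hS0, one_smul] at h6
  calc finrank ℂ_[p] (KSp hL A K)
      = finrank ℂ_[p] ((KSp hL A (sub σ F)).map (push (algebraMap (sub σ F) K))) := by rw [h1]
    _ = finrank ℂ_[p] (KSp hL A (sub σ F)) :=
        (LinearEquiv.finrank_eq (Submodule.equivMapOfInjective _ (push_inj _) _)).symm
    _ = finrank ℂ_[p] ((KSp hL A (sub σ F)).map (push (rst σ F))) :=
        (LinearEquiv.finrank_eq (Submodule.equivMapOfInjective _ (push_inj _) _))
    _ = finrank ℂ_[p] (inv hL A F σ) := by rw [h3]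

end Pool.Agent.Q244.TD
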