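import Pool.Agent.Q244.TD.Rep
set_option autoImplicit false
set_option linter.unusedSectionVars false
namespace Pool.Agent.Q244.TD

open NumberField TensorProduct Module
open NumberField.Units NumberField.Units.dirichletUnitTheorem
open Pool.Agent.W289.SL Pool.Agent.W332.SL6
open Pool.Agent.W254.PA (exists_theta)
open Pool.Agent.W332.SL7 (QSub FinQ dimQ Bounds Coords push_injective)
open Pool.Agent.Q244.LK

variable {p : ℕ} [hp : Fact p.Prime]
variable {L : ℂ_[p] → ℂ_[p]} (hL : IsIwasawaLog p L)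

theorem push_one {F : Type} [Field F] [NumberField F] (x : UM p F) :
    push ((1 : F ≃ₐ[ℚ] F) : F →+* F) x = x := by
  have h : ((1 : F ≃ₐ[ℚ] F) : F →+* F) = RingHom.id F := by
    ext y
    rfl
  rw [h, push_id]

theorem push_mul {F : Type} [Field F] [NumberField F] (g h : F ≃ₐ[ℚ] F) (x : UM p F) :
    push ((g * h : F ≃ₐ[ℚ] F) : F →+* F) x = push (g : F →+* F) (push (h : F →+* F) x) := by
  rw [push_push]
  congr 1

/-- the automorphisms which act trivially on the kernel -/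
def triv (A : QSub ℂ_[p]) (F : Type) [Field F] [NumberField F] : Subgroup (F ≃ₐ[ℚ] F) where
  carrier := {γ | ∀ x : UM p F, InKer hL A x → push (γ : F →+* F) x = x}
  one_mem' := by
    intro x _
    exact push_one x
  mul_mem' := by
    intro γ δ hγ hδ x hx
    rw [push_mul, hδ x hx, hγ x hx]
  inv_mem' := by
    intro γ hγ x hx
    have h1 : push ((γ⁻¹ : F ≃ₐ[ℚ] F) : F →+* F) (push (γ : F →+* F) x) = x := by
      rw [← push_mul, inv_mul_cancel, push_one]
    rwa [hγ x hx] at h1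

theorem mem_triv {A : QSub ℂ_[p]} {F : Type} [Field F] [NumberField F] {γ : F ≃ₐ[ℚ] F} :
    γ ∈ triv hL A F ↔ ∀ x : UM p F, InKer hL A x → push (γ : F →+* F) x = x := Iff.rfl

theorem triv_normal (A : QSub ℂ_[p]) (F : Type) [Field F] [NumberField F] :
    (triv hL A F).Normal := by
  refine ⟨fun γ hγ g => ?_⟩
  rw [mem_triv] at hγ ⊢
  intro x hx
  rw [push_mul, push_mul, hγ _ (hx.push _), ← push_mul, mul_inv_cancel, push_one]

/-- the subfield of `ℂ_p` which corresponds to a subgroup of the Galois group -/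
noncomputable def fixd {F : Type} [Field F] [NumberField F] (ι : F →+* ℂ_[p])
    (N : Subgroup (F ≃ₐ[ℚ] F)) : IntermediateField ℚ ℂ_[p] :=
  (IntermediateField.fixedField N).map (RingHom.toRatAlgHom ι)

theorem powers_fixed {A : QSub ℂ_[p]} {F : IntermediateField ℚ ℂ_[p]} [NumberField F]
    (hF : PowersAll L A F) : PowersAll L A (fixd (algebraMap F ℂ_[p]) (triv hL A F)) := by
  classical
  intro n K _ _ σ ε a ha hai hrel i
  choose m₀ hm₀ hmF using hF n K σ ε a ha hai hrel
  let m : ℕ := ∏ j, m₀ j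
  have hm : 1 ≤ m := Nat.one_le_iff_ne_zero.2
    (Finset.prod_ne_zero_iff.2 fun j _ => by have := hm₀ j; omega)
  have hF' : ∀ j, σ ((ε j : 𝓞 K) : K) ^ m ∈ F := fun j => by
    obtain ⟨c, hc⟩ := Finset.dvd_prod_of_mem m₀ (Finset.mem_univ j)
    show _ ^ (∏ j, m₀ j) ∈ F
    rw [hc, pow_mul]
    exact pow_mem (hmF j) c
  have hval : ∀ (H : Type) [Field H] [NumberField H] (u : (𝓞 H)ˣ) (k : ℕ),
      (((u ^ k : (𝓞 H)ˣ) : 𝓞 H) : H) = ((u : 𝓞 H) : H) ^ k := by
    intro H _ _ u k
    rw [Units.val_pow_eq_pow_val]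
    exact map_pow (algebraMap (𝓞 H) H) _ _
  have h1 : ∀ j, ∃ v : (𝓞 (sub σ F))ˣ, (((v : 𝓞 (sub σ F)) : sub σ F) : K) =
      (((ε j ^ m : (𝓞 K)ˣ) : 𝓞 K) : K) := by
    intro j
    apply unit_sub
    rw [mem_sub, hval, map_pow]
    exact hF' j
  choose v hv using h1
  let y : Fin n → Additive (𝓞 F)ˣ := fun j => uMap (rst σ F) (Additive.ofMul (v j))
  have hy : ∀ j, algebraMap F ℂ_[p] ((Additive.toMul (y j) : (𝓞 F)ˣ) : 𝓞 F) =
      σ ((ε j : 𝓞 K) : K) ^ m := by
    intro j
    rw [← map_pow, ← hval, ← hv j]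
    rfl
  have hx : InKer hL A (∑ j, a j ⊗ₜ[ℤ] y j : UM p F) := by
    refine ⟨coords_sum _ _ ha, fun τ => ?_⟩
    obtain ⟨t, ht⟩ := exists_ext' (algebraMap (sub σ F) K) (τ.comp (rst σ F))
    have h2 : (∑ j, a j ⊗ₜ[ℤ] y j : UM p F) =
        push (rst σ F) (∑ j, a j ⊗ₜ[ℤ] Additive.ofMul (v j)) := by
      rw [map_sum]
      rfl
    rw [h2, logLin_push, ← ht, ← logLin_push, map_sum, map_sum]
    have h3 : ∀ j, logLin hL t (push (algebraMap (sub σ F) K)
        (a j ⊗ₜ[ℤ] Additive.ofMul (v j))) = m * (a j * L (t ((ε j : 𝓞 K) : K))) := by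
      intro j
      have h4 : uMap (algebraMap (sub σ F) K) (Additive.ofMul (v j)) =
          m • Additive.ofMul (ε j) := by
        apply Additive.toMul.injective
        apply Units.ext
        apply RingOfIntegers.ext
        exact hv j
      have h5 : L (t (((ε j ^ m : (𝓞 K)ˣ) : 𝓞 K) : K)) = m * L (t ((ε j : 𝓞 K) : K)) := by
        have := (logHom hL t).map_nsmul m (Additive.ofMul (ε j))
        rw [nsmul_eq_mul] at this
        exact this
      rw [push_tmul, h4, logLin_tmul', toMul_nsmul, toMul_ofMul, h5]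
      ring
    rw [Finset.sum_congr rfl fun j _ => h3 j, ← Finset.mul_sum, hrel t, mul_zero]
  have h4 : ∀ γ : triv hL A F, ∃ N : ℕ, 1 ≤ N ∧
      N • uMap (((γ : F ≃ₐ[ℚ] F) : F →+* F)) (y i) = N • y i := by
    intro γ
    have h5 := (mem_triv hL).1 γ.2 _ hx
    rw [map_sum] at h5
    obtain ⟨N, hN, h6⟩ := tors_of_zero a
      (fun j => uMap (((γ : F ≃ₐ[ℚ] F) : F →+* F)) (y j) - y j) hai (by
        simp only [TensorProduct.tmul_sub]
        rw [Finset.sum_sub_distrib, sub_eq_zero]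
        exact h5) i
    refine ⟨N, hN, ?_⟩
    rw [← sub_eq_zero, ← nsmul_sub]
    exact h6
  choose N hN hNy using h4
  have : Fintype (triv hL A F) := Fintype.ofFinite _
  let M : ℕ := ∏ γ, N γ
  have hM : 1 ≤ M := Nat.one_le_iff_ne_zero.2
    (Finset.prod_ne_zero_iff.2 fun γ _ => by have := hN γ; omega)
  let z : F := ((Additive.toMul (y i) : (𝓞 F)ˣ) : 𝓞 F)
  refine ⟨m * M, Nat.mul_pos hm hM, z ^ M, ?_, ?_⟩
  · show z ^ M ∈ IntermediateField.fixedField (triv hL A F)
    rw [IntermediateField.mem_fixedField_iff]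
    intro γ hγ
    obtain ⟨c, hc⟩ := Finset.dvd_prod_of_mem N (Finset.mem_univ ⟨γ, hγ⟩)
    have h8 : γ (z ^ N ⟨γ, hγ⟩) = z ^ N ⟨γ, hγ⟩ := by
      have h7 := congrArg (fun w : Additive (𝓞 F)ˣ => (((Additive.toMul w : (𝓞 F)ˣ) : 𝓞 F) : F))
        (hNy ⟨γ, hγ⟩)
      simp only [toMul_nsmul, hval] at h7
      rw [map_pow]
      exact h7
    show γ (z ^ ∏ γ, N γ) = z ^ ∏ γ, N γ
    rw [hc, pow_mul, map_pow, h8]
  · show algebraMap F ℂ_[p] (z ^ M) = _
    rw [map_pow, pow_mul, ← hy]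

theorem fixd_props {F : Type} [Field F] [NumberField F] [IsGalois ℚ F] (ι : F →+* ℂ_[p])
    (N : Subgroup (F ≃ₐ[ℚ] F)) (hN : N.Normal) :
    FiniteDimensional ℚ (fixd ι N) ∧ Normal ℚ (fixd ι N) ∧
      finrank ℚ (fixd ι N) * Nat.card N = finrank ℚ F := by
  let e : IntermediateField.fixedField N ≃ₐ[ℚ] fixd ι N :=
    (IntermediateField.fixedField N).equivMap (RingHom.toRatAlgHom ι)
  have h1 : IsGalois ℚ (IntermediateField.fixedField N) := IsGalois.of_fixedField_normal_subgroup N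
  have hf : FiniteDimensional ℚ (IntermediateField.fixedField N) := inferInstance
  refine ⟨?_, ?_, ?_⟩
  · exact e.toLinearEquiv.finiteDimensional
  · have h2 := h1.to_normal
    have h3 := Normal.of_algEquiv e
    convert h3
  · rw [← e.toLinearEquiv.finrank_eq, ← IntermediateField.finrank_fixedField_eq_card,
      finrank_mul_finrank]

/-- **A minimal field.** -/
theorem exists_min (A : QSub ℂ_[p]) (hA : FinQ A) :
    ∃ (F : IntermediateField ℚ ℂ_[p]) (_ : NumberField F), Normal ℚ F ∧ PowersAll L A F ∧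
      triv hL A F = ⊥ := by
  classical
  have hA' : FiniteDimensional (algebraicClosure ℚ ℂ_[p]) A := hA
  obtain ⟨F₀, h1, h2, h3⟩ := field_of_space hL A
  have hP : ∃ d, ∃ F : IntermediateField ℚ ℂ_[p], FiniteDimensional ℚ F ∧ Normal ℚ F ∧
      PowersAll L A F ∧ finrank ℚ F = d :=
    ⟨_, F₀, h1, h2, fun n K _ _ σ ε a ha hai hrel i => h3 n a (fun i => σ ((ε i : 𝓞 K) : K)) ha hai
      (fun i => nearU_unit σ _) (hrel σ) i, rfl⟩
  obtain ⟨F, hF1, hF2, hF3, hF4⟩ := Nat.find_spec hP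
  have hNF : NumberField F := { to_charZero := inferInstance, to_finiteDimensional := hF1 }
  refine ⟨F, hNF, hF2, hF3, ?_⟩
  have hG : IsGalois ℚ F := { to_normal := hF2, to_isSeparable := inferInstance }
  obtain ⟨g1, g2, g3⟩ := fixd_props (algebraMap F ℂ_[p]) (triv hL A F) (triv_normal hL A F)
  have h5 := Nat.find_min' hP ⟨_, g1, g2, powers_fixed hL hF3, rfl⟩
  rw [← hF4, ← g3] at h5
  have h6 : 0 < finrank ℚ (fixd (algebraMap F ℂ_[p]) (triv hL A F)) := Module.finrank_pos
  have h7 : Nat.card (triv hL A F) ≤ 1 := by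
    by_contra h8
    push Not at h8
    nlinarith
  exact Subgroup.eq_bot_of_card_le _ h7

/-- the action of the Galois group on the space generated by the kernel elements -/
noncomputable def repr (A : QSub ℂ_[p]) (F : Type) [Field F] [NumberField F] :
    (F ≃ₐ[ℚ] F) →* Module.End ℂ_[p] (KSp hL A F) where
  toFun γ := (push (γ : F →+* F)).restrict (p := KSp hL A F) (q := KSp hL A F) (by
    intro x hx
    refine Submodule.span_induction (p := fun x _ => push (γ : F →+* F) x ∈ KSp hL A F) ?_ ?_ ?_ ?_ hx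
    · exact fun y hy => Submodule.subset_span (InKer.push hy _)
    · rw [map_zero]
      exact zero_mem _
    · intro y z _ _ h1 h2
      rw [map_add]
      exact add_mem h1 h2
    · intro c y _ h1
      rw [map_smul]
      exact Submodule.smul_mem _ _ h1)
  map_one' := by
    ext x
    exact push_one (x : UM p F)
  map_mul' γ δ := by
    ext x
    exact push_mul γ δ (x : UM p F)

theorem coe_repr (A : QSub ℂ_[p]) (F : Type) [Field F] [NumberField F] (γ : F ≃ₐ[ℚ] F)
    (x : KSp hL A F) : ((repr hL A F γ x : KSp hL A F) : UM p F) = push (γ : F →+* F) (x : UM p F) :=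
  rfl

theorem repr_inj (A : QSub ℂ_[p]) (F : Type) [Field F] [NumberField F] (h : triv hL A F = ⊥) :
    Function.Injective (repr hL A F) := by
  rw [injective_iff_map_eq_one]
  intro γ hγ
  have h1 : γ ∈ triv hL A F := by
    rw [mem_triv]
    intro x hx
    have h2 := congrArg (fun f : Module.End ℂ_[p] (KSp hL A F) =>
      ((f ⟨x, Submodule.subset_span hx⟩ : KSp hL A F) : UM p F)) hγ
    exact h2
  rw [h] at h1
  exact Subgroup.mem_bot.1 h1

end Pool.Agent.Q244.TD
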