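import Pool.Agent.Q244.TD.Sep
import Pool.Agent.Q244.LK.Desc

/-!
# The Galois representation on the Leopoldt kernels with coordinates in a given space
-/

set_option autoImplicit false
set_option linter.unusedSectionVars false

namespace Pool.Agent.Q244.TD

open NumberField TensorProduct Module
open NumberField.Units NumberField.Units.dirichletUnitTheorem
open Pool.Agent.W289.SL Pool.Agent.W332.SL6
open Pool.Agent.W254.PA (exists_theta)
open Pool.Agent.W332.SL7 (QSub FinQ dimQ Bounds Coords push_injective)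
open Pool.Agent.Q244.LK

variable {p : ℕ} [hp : Fact p.Prime]

theorem push_id {K : Type} [Field K] [NumberField K] (x : UM p K) : push (RingHom.id K) x = x := by
  induction x using TensorProduct.induction_on with
  | zero => simp
  | tmul c u =>
    rw [push_tmul]
    congr 1
  | add x y hx hy => rw [map_add, hx, hy]

/-- finite dimension -/
theorem um_finite {K : Type} [Field K] [NumberField K] : Module.Finite ℂ_[p] (UM p K) := by
  classical
  refine ⟨⟨Finset.univ.image fun k => ((1 : ℂ_[p]) ⊗ₜ[ℤ] fu K k : UM p K), ?_⟩⟩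
  rw [eq_top_iff]
  intro x _
  obtain ⟨b, rfl⟩ := decomp x
  refine Submodule.sum_mem _ fun k _ => Submodule.smul_mem _ _ (Submodule.subset_span ?_)
  simp

/-- the exponents of a unit with respect to the fundamental system -/
theorem exists_coord (K : Type) [Field K] [NumberField K] :
    ∃ e : Fin (rank K) → (Additive (𝓞 K)ˣ →+ ℤ), ∀ x : Additive (𝓞 K)ˣ, (∀ k, e k x = 0) →
      Additive.toMul x ∈ torsion K := by
  choose f hf using fun x : (𝓞 K)ˣ => (exist_unique_eq_mul_prod K x).exists
  have hm : ∀ x y : (𝓞 K)ˣ, f (x * y) = ((f x).1 * (f y).1, (f x).2 + (f y).2) := fun x y =>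
    (exist_unique_eq_mul_prod K (x * y)).unique (hf (x * y)) (by
      have h1 : ∏ i, fundSystem K i ^ ((f x).2 + (f y).2) i =
          (∏ i, fundSystem K i ^ (f x).2 i) * ∏ i, fundSystem K i ^ (f y).2 i := by
        rw [← Finset.prod_mul_distrib]
        exact Finset.prod_congr rfl fun i _ => by rw [Pi.add_apply, zpow_add]
      show x * y = ((f x).1 * (f y).1 : (torsion K)) * ∏ i, fundSystem K i ^ ((f x).2 + (f y).2) i
      rw [h1, Subgroup.coe_mul]
      conv_lhs => rw [hf x, hf y]
      exact mul_mul_mul_comm _ _ _ _)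
  refine ⟨fun k => AddMonoidHom.mk' (fun x => (f (Additive.toMul x)).2 k) fun a b => ?_, fun x hx => ?_⟩
  · rw [toMul_add, hm]
    rfl
  · have h1 := hf (Additive.toMul x)
    have h2 : (f (Additive.toMul x)).2 = 0 := funext hx
    rw [h2] at h1
    simp only [Pi.zero_apply, zpow_zero, Finset.prod_const_one, mul_one] at h1
    rw [h1]
    exact (f (Additive.toMul x)).1.2

/-- The terms of a vanishing sum of tensors with coefficients which are independent over `ℚ`. -/
theorem tors_of_zero {K : Type} [Field K] [NumberField K] {n : ℕ} (c : Fin n → ℂ_[p])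
    (v : Fin n → Additive (𝓞 K)ˣ) (hc : RInd c) (h : (∑ i, c i ⊗ₜ[ℤ] v i : UM p K) = 0) (i : Fin n) :
    ∃ N : ℕ, 1 ≤ N ∧ N • v i = 0 := by
  classical
  have key : ∀ e : Additive (𝓞 K)ˣ →+ ℤ, e (v i) = 0 := by
    intro e
    have h1 := congrArg
      (((((Int.castAddHom ℂ_[p]).comp e).toIntLinearMap.liftBaseChange ℂ_[p]) :
        UM p K →ₗ[ℂ_[p]] ℂ_[p])) h
    rw [map_zero, map_sum] at h1
    have h2 : ∑ i, (((e (v i) : ℤ) : ℚ) : ℂ_[p]) * c i = 0 := by
      rw [← h1]
      refine Finset.sum_congr rfl fun j _ => ?_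
      rw [LinearMap.liftBaseChange_tmul, smul_eq_mul, mul_comm]
      simp
    have h3 := congrFun (hc (fun j => ((e (v j) : ℤ) : ℚ)) h2) i
    simpa using h3
  obtain ⟨e, he⟩ := exists_coord K
  have h4 : IsOfFinOrder (Additive.toMul (v i)) := he (v i) fun k => key (e k)
  obtain ⟨N, hN, h5⟩ := isOfFinOrder_iff_pow_eq_one.1 h4
  exact ⟨N, hN, h5⟩

variable {L : ℂ_[p] → ℂ_[p]} (hL : IsIwasawaLog p L)

/-- an element of the Leopoldt kernel with coordinates in `A` -/
def InKer (A : QSub ℂ_[p]) {K : Type} [Field K] [NumberField K] (x : UM p K) : Prop :=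
  Coords A x ∧ ∀ σ : K →+* ℂ_[p], logLin hL σ x = 0

/-- the space generated by these elements -/
noncomputable def KSp (A : QSub ℂ_[p]) (K : Type) [Field K] [NumberField K] :
    Submodule ℂ_[p] (UM p K) := Submodule.span ℂ_[p] {x | InKer hL A x}

variable {hL} in
theorem InKer.push {A : QSub ℂ_[p]} {K H : Type} [Field K] [NumberField K] [Field H]
    [NumberField H] {x : UM p K} (hx : InKer hL A x) (f : K →+* H) :
    InKer hL A (Pool.Agent.W332.SL6.push f x) :=
  ⟨coords_map f hx.1, fun σ => by rw [logLin_push]; exact hx.2 _⟩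

theorem bounds_family (A : QSub ℂ_[p]) (hA : FinQ A) {K : Type} [Field K] [NumberField K] {r : ℕ}
    (x : Fin r → UM p K) (hx : LinearIndependent ℂ_[p] x) (hxA : ∀ i, InKer hL A (x i)) :
    Bounds A r := by
  obtain ⟨σ⟩ : Nonempty (K →+* ℂ_[p]) := inferInstance
  have h := bounds_sep hL A hA (J := Unit) (fun _ => K) (fun _ => K) (fun _ => 1) (fun _ => σ)
    (fun j j' hjj' => absurd (Subsingleton.elim j j') hjj') (fun _ => r) (fun _ => x)
    (fun _ => hx) (fun _ i τ => ?_) (fun _ i => (hxA i).2 σ) (fun _ i => (hxA i).1)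
  · simpa using h
  · have h1 : ((τ : K ≃ₐ[K] K) : K →+* K) = RingHom.id K := by
      ext y
      exact τ.commutes y
    rw [actLin_eq, h1, push_id]
    simp

theorem bounds_KSp (A : QSub ℂ_[p]) (hA : FinQ A) (K : Type) [Field K] [NumberField K] :
    Bounds A (finrank ℂ_[p] (KSp hL A K)) := by
  classical
  have i1 : Module.Finite ℂ_[p] (UM p K) := um_finite
  obtain ⟨b, hb, hspan, hli⟩ := exists_linearIndependent ℂ_[p] {x : UM p K | InKer hL A x}
  have : Finite b := hli.finite
  have : Fintype b := Fintype.ofFinite b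
  have h1 : finrank ℂ_[p] (KSp hL A K) = Fintype.card b := by
    unfold KSp
    rw [← hspan]
    have := finrank_span_eq_card hli
    rwa [Subtype.range_coe] at this
  rw [h1]
  let e := Fintype.equivFin b
  exact bounds_family hL A hA (fun i => ((e.symm i : b) : UM p K)) (hli.comp _ e.symm.injective)
    fun i => hb (e.symm i).2

/-- All units in relations with all embeddings have a power which `σ` maps to `F`. -/
def PowersAll (L : ℂ_[p] → ℂ_[p]) (A : QSub ℂ_[p]) (F : IntermediateField ℚ ℂ_[p]) : Prop :=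
  ∀ (n : ℕ) (K : Type) [Field K] [NumberField K] (σ : K →+* ℂ_[p]) (ε : Fin n → (𝓞 K)ˣ)
    (a : Fin n → ℂ_[p]), (∀ i, a i ∈ A) → RInd a →
    (∀ τ : K →+* ℂ_[p], ∑ i, a i * L (τ ((ε i : 𝓞 K) : K)) = 0) →
    ∀ i, ∃ m : ℕ, 1 ≤ m ∧ σ ((ε i : 𝓞 K) : K) ^ m ∈ F

/-- the restriction of `σ` to the elements which are mapped to `F` -/
noncomputable def rst {K : Type} [Field K] [NumberField K] (σ : K →+* ℂ_[p])
    (F : IntermediateField ℚ ℂ_[p]) : sub σ F →+* F where
  toFun y := ⟨σ (y : K), y.2⟩
  map_one' := Subtype.ext (map_one σ)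
  map_mul' a b := Subtype.ext (map_mul σ (a : K) (b : K))
  map_zero' := Subtype.ext (map_zero σ)
  map_add' a b := Subtype.ext (map_add σ (a : K) (b : K))

theorem descend_all {A : QSub ℂ_[p]} {F : IntermediateField ℚ ℂ_[p]} (hF : PowersAll L A F)
    {K : Type} [Field K] [NumberField K] (σ : K →+* ℂ_[p]) {x : UM p K} (hx : InKer hL A x) :
    ∃ x₁ : UM p (sub σ F), InKer hL A x₁ ∧ push (algebraMap (sub σ F) K) x₁ = x := by
  obtain ⟨n, c, u, hc, hci, rfl⟩ := rep A x hx.1
  have hci' : RInd c := fun w hw => hci w (by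
    rw [← hw]
    exact Finset.sum_congr rfl fun i _ => Rat.smul_def _ _)
  obtain ⟨x₁, h1, h2⟩ := descend (sub σ F) c u hc fun i => by
    obtain ⟨m, hm, h3⟩ := hF n K σ (fun i => Additive.toMul (u i)) c hc hci' (fun τ => by
      rw [← hx.2 τ, map_sum]
      exact Finset.sum_congr rfl fun i _ => rfl) i
    refine ⟨m, hm, ?_⟩
    rw [mem_sub, map_pow]
    exact h3
  refine ⟨x₁, ⟨h1, fun τ => ?_⟩, h2⟩
  obtain ⟨t, ht⟩ := exists_ext' (algebraMap (sub σ F) K) τ
  rw [← ht, ← logLin_push, h2]
  exact hx.2 t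

/-- The dimension is maximal for the field `F`. -/
theorem finrank_le (A : QSub ℂ_[p]) {F : IntermediateField ℚ ℂ_[p]} [NumberField F]
    (hF : PowersAll L A F) (K : Type) [Field K] [NumberField K] :
    finrank ℂ_[p] (KSp hL A K) ≤ finrank ℂ_[p] (KSp hL A F) := by
  obtain ⟨σ⟩ : Nonempty (K →+* ℂ_[p]) := inferInstance
  obtain ⟨θ⟩ := exists_theta p
  have i1 : Module.Finite ℂ_[p] (UM p (sub σ F)) := um_finite
  have i2 : Module.Finite ℂ_[p] (UM p F) := um_finite
  have h1 : KSp hL A K ≤ (KSp hL A (sub σ F)).map (push (algebraMap (sub σ F) K)) := by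
    unfold KSp
    rw [Submodule.span_le]
    intro x hx
    obtain ⟨x₁, h2, h3⟩ := descend_all hL hF σ hx
    exact ⟨x₁, Submodule.subset_span h2, h3⟩
  have h2 : (KSp hL A (sub σ F)).map (push (rst σ F)) ≤ KSp hL A F := by
    unfold KSp
    rw [Submodule.map_span, Submodule.span_le]
    rintro _ ⟨x, hx, rfl⟩
    exact Submodule.subset_span (InKer.push hx _)
  have i3 : Module.Finite ℂ_[p] (UM p K) := um_finite
  have inj : Function.Injective (push (p := p) (rst σ F)) := by
    rw [← LinearMap.ker_eq_bot, LinearMap.ker_eq_bot']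
    exact fun x hx => push_injective θ _ x hx
  calc finrank ℂ_[p] (KSp hL A K)
      ≤ finrank ℂ_[p] ((KSp hL A (sub σ F)).map (push (algebraMap (sub σ F) K))) :=
        Submodule.finrank_mono h1
    _ ≤ finrank ℂ_[p] (KSp hL A (sub σ F)) := Submodule.finrank_map_le _ _
    _ = finrank ℂ_[p] ((KSp hL A (sub σ F)).map (push (rst σ F))) :=
        (LinearEquiv.finrank_eq (Submodule.equivMapOfInjective _ inj _))
    _ ≤ finrank ℂ_[p] (KSp hL A F) := Submodule.finrank_mono h2

end Pool.Agent.Q244.TD
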