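import Pool.Agent.W332.SL7.Mono
import Pool.Agent.Q244.LK.Desc

/-!
# Relations between `p`-adic logarithms in independent groups, with coefficients in a given space
-/

set_option autoImplicit false
set_option linter.unusedSectionVars false

namespace Pool.Agent.Q244.TD

open NumberField TensorProduct Module
open Pool.Agent.W289.SL Pool.Agent.W332.SL6
open Pool.Agent.W254.PA (Hyp LtE LgP exists_pow_near norm_ic ic)
open Pool.Agent.W332.SL7 (QSub FinQ dimQ Bounds bounds_of)
open Pool.Agent.Q244.LK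

/-- multiplicatively independent -/
def MInd {ι : Type} [Fintype ι] {G : Type*} [CommGroup G] (u : ι → G) : Prop :=
  ∀ m : ι → ℤ, ∏ i, u i ^ m i = 1 → m = 0

/-- Families in independent groups. -/
theorem mind_sigma {G : Type*} [CommGroup G] {M : ℕ} {n : Fin M → ℕ} (u : (k : Fin M) → Fin (n k) → G)
    (H E : Fin M → Subgroup G) (hu : ∀ k i, u k i ∈ H k) (hk : ∀ k, MInd (u k))
    (hE : ∀ j k, j < k → H j ≤ E k)
    (hT : ∀ k, ∀ x ∈ H k, x ∈ E k → ∃ N : ℕ, 1 ≤ N ∧ x ^ N = 1) :
    MInd (fun q : Σ k, Fin (n k) => u q.1 q.2) := by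
  classical
  intro m hm
  -- the partial products
  set x : Fin M → G := fun k => ∏ i, u k i ^ m ⟨k, i⟩ with hx
  have hxH : ∀ k, x k ∈ H k := fun k => Subgroup.prod_mem _ fun i _ =>
    Subgroup.zpow_mem _ (hu k i) _
  have hprod : ∏ k, x k = 1 := by
    rw [← hm, Fintype.prod_sigma]
  have main : ∀ k, ∀ i, m ⟨k, i⟩ = 0 := by
    intro k
    induction k using WellFoundedGT.induction with
    | ind k ih =>
      have h1 : ∀ j, k < j → x j = 1 := by
        intro j hj
        simp only [hx]
        refine Finset.prod_eq_one fun i _ => ?_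
        rw [ih j hj i, zpow_zero]
      have h2 : x k * ∏ j ∈ Finset.univ.filter (fun j => j < k), x j = 1 := by
        rw [← hprod]
        have h3 : (Finset.univ : Finset (Fin M)) =
            insert k (Finset.univ.filter (fun j => j < k)) ∪ Finset.univ.filter (fun j => k < j) := by
          ext j
          simp only [Finset.mem_univ, Finset.mem_union, Finset.mem_insert, Finset.mem_filter,
            true_and, true_iff]
          rcases lt_trichotomy j k with h | h | h
          · exact Or.inl (Or.inr h)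
          · exact Or.inl (Or.inl h)
          · exact Or.inr h
        have h4 : ∏ j ∈ (insert k (Finset.univ.filter (fun j => j < k)) ∪
            Finset.univ.filter (fun j => k < j)), x j =
            (∏ j ∈ insert k (Finset.univ.filter (fun j => j < k)), x j) *
              ∏ j ∈ Finset.univ.filter (fun j => k < j), x j := by
          refine Finset.prod_union ?_
          rw [Finset.disjoint_left]
          intro j hj hj'
          have h4 := (Finset.mem_filter.1 hj').2
          rcases Finset.mem_insert.1 hj with h | h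
          · exact absurd h4 (by rw [h]; exact lt_irrefl _)
          · exact absurd (Finset.mem_filter.1 h).2 (lt_asymm h4)
        have h5 : ∏ j ∈ Finset.univ.filter (fun j => k < j), x j = 1 :=
          Finset.prod_eq_one fun j hj => h1 j (Finset.mem_filter.1 hj).2
        rw [Finset.prod_insert (by simp), h5, mul_one, ← h3] at h4
        exact h4.symm
      have h5 : x k ∈ E k := by
        have h6 : x k = (∏ j ∈ Finset.univ.filter (fun j => j < k), x j)⁻¹ := eq_inv_of_mul_eq_one_left h2
        rw [h6]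
        exact Subgroup.inv_mem _ (Subgroup.prod_mem _ fun j hj =>
          hE j k (Finset.mem_filter.1 hj).2 (hxH j))
      obtain ⟨N, hN, h7⟩ := hT k _ (hxH k) h5
      have h8 := hk k (fun i => m ⟨k, i⟩ * N) (by
        rw [← h7]
        simp only [hx]
        rw [← Finset.prod_pow]
        refine Finset.prod_congr rfl fun i _ => ?_
        rw [zpow_mul, zpow_natCast])
      intro i
      have h9 := congrFun h8 i
      simp only [Pi.zero_apply, mul_eq_zero, Nat.cast_eq_zero] at h9
      rcases h9 with h | h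
      · exact h
      · omega
  funext ⟨k, i⟩
  exact main k i

variable {p : ℕ} [hp : Fact p.Prime] {L : ℂ_[p] → ℂ_[p]} (hL : IsIwasawaLog p L)

include hL

/-- The logarithms of multiplicatively independent numbers. -/
theorem logs_indep {ι : Type} [Fintype ι] (u : ι → ℂ_[p]) (hu : ∀ i, NearU (u i))
    (h : ∀ m : ι → ℤ, ∏ i, u i ^ m i = 1 → m = 0) :
    LinearIndependent ℚ fun i => L (u i) := by
  classical
  rw [Fintype.linearIndependent_iff]
  intro q hq
  let N : ℕ := ∏ j, (q j).den
  have hN : N ≠ 0 := Finset.prod_ne_zero_iff.2 fun j _ => (q j).den_nz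
  have hm : ∀ j, ∃ m : ℤ, (m : ℚ) = N * q j := by
    intro j
    obtain ⟨t, ht⟩ : (q j).den ∣ N := Finset.dvd_prod_of_mem _ (Finset.mem_univ j)
    refine ⟨t * (q j).num, ?_⟩
    rw [ht]
    push_cast
    have h5 : q j * (q j).den = (q j).num := Rat.mul_den_eq_num _
    linear_combination (-(t : ℚ)) * h5
  choose m hm using hm
  have hP : NearU (∏ j, u j ^ m j) := nearU_prod _ _ fun j _ => nearU_zpow (hu j) _
  have hLP : L (∏ j, u j ^ m j) = 0 := by
    rw [log_prod hL _ _ fun j _ => (nearU_zpow (hu j) _).ne]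
    have h1 : ∀ j, L (u j ^ m j) = (N : ℂ_[p]) * ((q j : ℂ_[p]) * L (u j)) := by
      intro j
      rw [log_zpow hL (hu j).ne]
      have : ((m j : ℤ) : ℂ_[p]) = N * (q j : ℂ_[p]) := by
        exact_mod_cast congrArg (Rat.cast : ℚ → ℂ_[p]) (hm j)
      rw [this, mul_assoc]
    have h2 : ∑ j, (q j : ℂ_[p]) * L (u j) = 0 := by
      rw [← hq]
      refine Finset.sum_congr rfl fun j _ => ?_
      rw [Algebra.smul_def, eq_ratCast]
    rw [Finset.sum_congr rfl fun j _ => h1 j, ← Finset.mul_sum, h2, mul_zero]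
  obtain ⟨M, hM, hM1⟩ := exists_pow_one hL hP hLP
  have h2 := h (fun j => m j * M) (by
    rw [← hM1, ← Finset.prod_pow]
    refine Finset.prod_congr rfl fun j _ => ?_
    rw [zpow_mul, zpow_natCast])
  intro j
  have h3 := congrFun h2 j
  simp only [Pi.zero_apply, mul_eq_zero, Nat.cast_eq_zero] at h3
  have h4 : m j = 0 := by
    rcases h3 with h | h
    · exact h
    · omega
  have h5 := hm j
  rw [h4, Int.cast_zero] at h5
  have h6 : (N : ℚ) ≠ 0 := by exact_mod_cast hN
  exact (mul_eq_zero.1 h5.symm).resolve_left h6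

theorem logs_indep' {ι : Type} [Fintype ι] (u : ι → ℂ_[p]) (hu : ∀ i, NearU (u i))
    (h : ∀ m : ι → ℤ, ∏ i, u i ^ m i = 1 → m = 0) :
    LinearIndependent (algebraicClosure ℚ ℂ_[p]) fun i => L (u i) := by
  rw [Fintype.linearIndependent_iff]
  intro g hg i
  have h1 := brumerC hL u hu (logs_indep hL u hu h) (fun i => (g i : ℂ_[p]))
    (fun i => mem_algebraicClosure_iff.mp (g i).2) (by
      rw [← hg]
      refine Finset.sum_congr rfl fun i _ => ?_
      rw [Algebra.smul_def]
      rfl) i
  exact Subtype.ext h1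

/-- **The bounds for a system of relations.** -/
theorem bounds_indep (A : QSub ℂ_[p]) (hA : FinQ A) {ι : Type} [Fintype ι] (u : ι → ℂ_[p])
    (hu : ∀ i, NearU (u i)) (h : ∀ m : ι → ℤ, ∏ i, u i ^ m i = 1 → m = 0) (M : ℕ)
    (f : Fin M → ι → ℂ_[p]) (hf : LinearIndependent ℂ_[p] f) (hfA : ∀ k i, f k i ∈ A)
    (h0 : ∀ k, ∑ i, f k i * L (u i) = 0) : Bounds A M := by
  classical
  rcases Nat.eq_zero_or_pos M with hM | hM
  · subst hM
    exact ⟨fun B _ s e _ _ => by rw [zero_mul]; exact Nat.zero_le _, Nat.zero_le _,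
      fun _ _ _ => Nat.zero_le _, fun _ _ _ _ => Nat.zero_le _⟩
  have hne : A ≠ ⊥ := by
    rintro rfl
    refine hf.ne_zero ⟨0, hM⟩ ?_
    funext i
    exact (Submodule.mem_bot _).1 (hfA _ i)
  refine bounds_of A hA M hne ?_
  intro A' hA' hle B hB s e hs he
  have i1 : FiniteDimensional (algebraicClosure ℚ ℂ_[p]) A' := hA'
  have i2 : FiniteDimensional (algebraicClosure ℚ ℂ_[p]) B := hB
  have hne' : A' ≠ ⊥ := by
    rintro rfl
    exact hne (le_bot_iff.1 hle)
  refine Pool.Agent.W254.Ab.rel_trunc hypC (fun i => L (u i)) (logs_indep' hL u hu h)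
    (fun i => Submodule.subset_span (Or.inr (log_mem hL (hu i)))) A' B hne' M
    (fun k => Finsupp.equivFunOnFinite.symm (f k)) ?_ (fun k i => hle (hfA k i)) ?_ s e hs he
  · have h1 := hf.map' (Finsupp.linearEquivFunOnFinite ℂ_[p] ℂ_[p] ι).symm.toLinearMap
      (LinearEquiv.ker _)
    exact h1
  · intro k
    rw [Finsupp.sum_fintype _ _ (fun i => by rw [zero_mul])]
    exact h0 k

/-- **Independent blocks.** -/
theorem bounds_blocks (A : QSub ℂ_[p]) (hA : FinQ A) {M : ℕ} {n r : Fin M → ℕ}
    (u : (k : Fin M) → Fin (n k) → ℂ_[p]) (hu : ∀ k i, NearU (u k i))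
    (h : ∀ m : (Σ k, Fin (n k)) → ℤ, ∏ q : Σ k, Fin (n k), u q.1 q.2 ^ m q = 1 → m = 0)
    (a : (k : Fin M) → Fin (r k) → Fin (n k) → ℂ_[p]) (ha : ∀ k l i, a k l i ∈ A)
    (hli : ∀ k, LinearIndependent ℂ_[p] (a k)) (h0 : ∀ k l, ∑ i, a k l i * L (u k i) = 0) :
    Bounds A (∑ k, r k) := by
  classical
  let e : (Σ k, Fin (r k)) ≃ Fin (∑ k, r k) := finSigmaFinEquiv
  let f : (Σ k, Fin (r k)) → (Σ k, Fin (n k)) → ℂ_[p] := fun s q =>
    if h : q.1 = s.1 then a s.1 s.2 (h ▸ q.2) else 0
  have hf1 : ∀ k l i, f ⟨k, l⟩ ⟨k, i⟩ = a k l i := by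
    intro k l i
    simp [f]
  have hf2 : ∀ k l k' i, k' ≠ k → f ⟨k, l⟩ ⟨k', i⟩ = 0 := by
    intro k l k' i hk
    simp [f, hk]
  have hfli : LinearIndependent ℂ_[p] f := by
    rw [Fintype.linearIndependent_iff]
    intro g hg
    rintro ⟨k, l⟩
    have h1 : ∑ l', g ⟨k, l'⟩ • a k l' = 0 := by
      funext i
      have h2 := congrFun hg ⟨k, i⟩
      rw [Finset.sum_apply, Fintype.sum_sigma, Finset.sum_eq_single k] at h2
      · rw [Finset.sum_apply, Pi.zero_apply]
        rw [Pi.zero_apply] at h2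
        rw [← h2]
        refine Finset.sum_congr rfl fun l' _ => ?_
        rw [Pi.smul_apply, Pi.smul_apply, hf1]
      · intro k' _ hk'
        refine Finset.sum_eq_zero fun l' _ => ?_
        rw [Pi.smul_apply, hf2 _ _ _ _ (Ne.symm hk'), smul_zero]
      · intro hk
        exact absurd (Finset.mem_univ k) hk
    exact (Fintype.linearIndependent_iff.1 (hli k)) (fun l' => g ⟨k, l'⟩) h1 l
  refine bounds_indep hL A hA (fun q : Σ k, Fin (n k) => u q.1 q.2) (fun q => hu _ _) h _
    (fun j => f (e.symm j)) (hfli.comp _ e.symm.injective) ?_ ?_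
  · intro j q
    obtain ⟨k', i⟩ := q
    obtain ⟨⟨k, l⟩, hj⟩ : ∃ s, e.symm j = s := ⟨_, rfl⟩
    rw [hj]
    by_cases hk : k' = k
    · subst hk
      rw [hf1]
      exact ha _ _ _
    · rw [hf2 _ _ _ _ hk]
      exact A.zero_mem
  · intro j
    obtain ⟨⟨k, l⟩, hj⟩ : ∃ s, e.symm j = s := ⟨_, rfl⟩
    rw [hj, Fintype.sum_sigma, Finset.sum_eq_single k]
    · rw [← h0 k l]
      refine Finset.sum_congr rfl fun i _ => ?_
      rw [hf1]
    · intro k' _ hk'
      refine Finset.sum_eq_zero fun i _ => ?_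
      rw [hf2 _ _ _ _ hk', zero_mul]
    · intro hk
      exact absurd (Finset.mem_univ k) hk

end Pool.Agent.Q244.TD
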