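import Pool.Agent.W332.SL7.Main
import Pool.Agent.Q244.TD.Total
import Pool.Agent.Q244.LK.Std

/-!
# Characters of absolute Galois groups: relations between logarithms with coordinates in a space
-/

set_option autoImplicit false
set_option linter.unusedSectionVars false

namespace Pool.Agent.Q244.TD

open NumberField TensorProduct Module
open NumberField.Units NumberField.Units.dirichletUnitTheorem
open Pool.Agent.W289.SL Pool.Agent.W332.SL6
open Pool.Agent.W254.PA (exists_theta)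
open Pool.Agent.W332.SL7 (QSub FinQ dimQ Bounds HasCoords coords_push pr pr_sum pr_smul pr_self pr_push
  push_injective)
open Pool.Agent.Q244.LK

variable {p : ℕ} [hp : Fact p.Prime]

section conj

variable {J : Type} [Fintype J] {K H : J → Type} [∀ j, Field (K j)] [∀ j, NumberField (K j)]
  [∀ j, Field (H j)] [∀ j, NumberField (H j)] [∀ j, Algebra (K j) (H j)]
  [∀ j, FiniteDimensional (K j) (H j)] {M : Type} [Field M] [NumberField M]

/-- **Independence of conjugates**, for several fields and characters. -/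
theorem conj_zero' (θ : ℂ_[p] ≃+* ℂ) (χ : ∀ j, (H j ≃ₐ[K j] H j) →* ℂ_[p]ˣ)
    (y : ∀ j, UM p (H j)) (hy : ∀ j, InChi (χ j) (y j)) (τ : ∀ j, H j →+* M)
    (hsep : ∀ j j' : J, j ≠ j' → ∃ (γ : M ≃ₐ[ℚ] M) (h : H j ≃ₐ[K j] H j)
      (h' : H j' ≃ₐ[K j'] H j'),
      (γ : M →+* M).comp (τ j) = (τ j).comp (h : H j →+* H j) ∧
      (γ : M →+* M).comp (τ j') = (τ j').comp (h' : H j' →+* H j') ∧ χ j h ≠ χ j' h')
    (h0 : ∑ j, push (τ j) (y j) = 0) (j : J) : y j = 0 := by
  classical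
  have h1 : pr (χ j) (τ j) (∑ i, (1 : ℂ_[p]) • push (τ i) (y i)) = 0 := by
    have h2 := pr_smul (χ j) (τ j) (0 : ℂ_[p]) (0 : UM p M)
    rw [zero_smul, zero_smul] at h2
    rw [← h2]
    congr 1
    rw [← h0]
    exact Finset.sum_congr rfl fun i _ => one_smul _ _
  rw [pr_sum, Finset.sum_eq_single j] at h1
  · obtain ⟨N, hN, h3⟩ := pr_self (χ j) (τ j) (hy j)
    rw [h3, smul_smul] at h1
    rcases smul_eq_zero.1 h1 with h4 | h4
    · exact absurd h4 (mul_ne_zero one_ne_zero (by exact_mod_cast hN.ne'))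
    · exact push_injective θ _ _ h4
  · intro i _ hij
    obtain ⟨γ, h, h', e1, e2, hne⟩ := hsep j i (Ne.symm hij)
    have h3 := pr_push (χ j) (τ := τ j) (γ := (γ, h)) e1 (push (τ i) (y i))
    have h4 : push ((γ, h) : (M ≃ₐ[ℚ] M) × (H j ≃ₐ[K j] H j)).1.toRingHom (push (τ i) (y i)) =
        ((χ i h' : ℂ_[p]ˣ) : ℂ_[p]) • push (τ i) (y i) := by
      change push (γ : M →+* M) (push (τ i) (y i)) = _
      rw [push_push, e2, ← push_push, ← actLin_eq (h' : H i →+* H i), hy i h', map_smul]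
    have h5 : pr (χ j) (τ j) (((χ i h' : ℂ_[p]ˣ) : ℂ_[p]) • push (τ i) (y i)) =
        ((χ j h : ℂ_[p]ˣ) : ℂ_[p]) • pr (χ j) (τ j) (push (τ i) (y i)) := by
      rw [← h4]
      exact h3
    rw [pr_smul] at h5
    have h6 : (((χ i h' : ℂ_[p]ˣ) : ℂ_[p]) - ((χ j h : ℂ_[p]ˣ) : ℂ_[p])) •
        pr (χ j) (τ j) (push (τ i) (y i)) = 0 := by
      rw [sub_smul, h5, sub_self]
    rcases smul_eq_zero.1 h6 with h7 | h7
    · exact absurd (Units.ext (sub_eq_zero.1 h7).symm) hne
    · rw [h7, smul_zero]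
  · intro h
    exact absurd (Finset.mem_univ j) h

/-- **Independence of conjugates**, for several fields and characters. -/
theorem indep_conj' (θ : ℂ_[p] ≃+* ℂ) (χ : ∀ j, (H j ≃ₐ[K j] H j) →* ℂ_[p]ˣ) (r : J → ℕ)
    (x : ∀ j, Fin (r j) → UM p (H j)) (hx : ∀ j i, InChi (χ j) (x j i))
    (hx0 : ∀ j, LinearIndependent ℂ_[p] (x j)) (τ : ∀ j, H j →+* M)
    (hsep : ∀ j j' : J, j ≠ j' → ∃ (γ : M ≃ₐ[ℚ] M) (h : H j ≃ₐ[K j] H j)
      (h' : H j' ≃ₐ[K j'] H j'),
      (γ : M →+* M).comp (τ j) = (τ j).comp (h : H j →+* H j) ∧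
      (γ : M →+* M).comp (τ j') = (τ j').comp (h' : H j' →+* H j') ∧ χ j h ≠ χ j' h') :
    LinearIndependent ℂ_[p] (fun q : Σ j, Fin (r j) => push (τ q.1) (x q.1 q.2)) := by
  classical
  rw [Fintype.linearIndependent_iff]
  rintro c hc ⟨j, i⟩
  refine (Fintype.linearIndependent_iff.1 (hx0 j)) (fun i => c ⟨j, i⟩) ?_ i
  refine conj_zero' θ χ (fun j => ∑ i, c ⟨j, i⟩ • x j i) (fun j g => ?_) τ hsep ?_ j
  · rw [map_sum, Finset.smul_sum]
    refine Finset.sum_congr rfl fun i _ => ?_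
    rw [map_smul, hx j i g, smul_comm]
  · rw [← hc, Fintype.sum_sigma]
    refine Finset.sum_congr rfl fun j _ => ?_
    rw [map_sum]
    refine Finset.sum_congr rfl fun i _ => ?_
    rw [map_smul]

end conj

/-- The absolute Galois group of `ℚ`. -/
abbrev GalQ (p : ℕ) [Fact p.Prime] : Type := algebraicClosure ℚ ℂ_[p] ≃ₐ[ℚ] algebraicClosure ℚ ℂ_[p]

/-- `g σ = σ h` -/
def Induces {H : Type} [Field H] (g : GalQ p) (σ : H →+* ℂ_[p]) (h : H →+* H) : Prop :=
  ∀ (y : H) (z : algebraicClosure ℚ ℂ_[p]), (z : ℂ_[p]) = σ y →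
    ((g z : algebraicClosure ℚ ℂ_[p]) : ℂ_[p]) = σ (h y)

/-- The two characters differ at a common element. -/
def Differ {K H K' H' : Type} [Field K] [Field H] [Algebra K H] [Field K'] [Field H'] [Algebra K' H']
    (χ : (H ≃ₐ[K] H) →* ℂ_[p]ˣ) (σ : H →+* ℂ_[p]) (χ' : (H' ≃ₐ[K'] H') →* ℂ_[p]ˣ)
    (σ' : H' →+* ℂ_[p]) : Prop :=
  ∃ (g : GalQ p) (h : H ≃ₐ[K] H) (h' : H' ≃ₐ[K'] H'), Induces g σ (h : H →+* H) ∧
    Induces g σ' (h' : H' →+* H') ∧ χ h ≠ χ' h'

/-- an embedding of a number field as a map to the algebraic numbers -/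
noncomputable def toQb {M : Type} [Field M] [NumberField M] (inc : M →+* ℂ_[p]) :
    M →+* algebraicClosure ℚ ℂ_[p] where
  toFun y := ⟨inc y, mem_algebraicClosure_iff.2
    ((Algebra.IsAlgebraic.isAlgebraic (R := ℚ) y).algHom (RingHom.toRatAlgHom inc))⟩
  map_one' := Subtype.ext (map_one inc)
  map_mul' a b := Subtype.ext (map_mul inc a b)
  map_zero' := Subtype.ext (map_zero inc)
  map_add' a b := Subtype.ext (map_add inc a b)

theorem coe_toQb {M : Type} [Field M] [NumberField M] (inc : M →+* ℂ_[p]) (y : M) :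
    ((toQb inc y : algebraicClosure ℚ ℂ_[p]) : ℂ_[p]) = inc y := rfl

theorem exists_aut_of {M : Type} [Field M] [NumberField M] [IsGalois ℚ M] (inc : M →+* ℂ_[p])
    (g : GalQ p) : ∃ γ : M ≃ₐ[ℚ] M, ∀ y, ((g (toQb inc y) : algebraicClosure ℚ ℂ_[p]) : ℂ_[p]) =
      inc (γ y) := by
  obtain ⟨γ, hγ⟩ := exists_aut (K := ℚ) (H := M)
    (((g : algebraicClosure ℚ ℂ_[p] ≃ₐ[ℚ] algebraicClosure ℚ ℂ_[p]) :
      algebraicClosure ℚ ℂ_[p] →+* algebraicClosure ℚ ℂ_[p]).comp (toQb inc)) (toQb inc)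
    (RingHom.ext_rat _ _)
  refine ⟨γ, fun y => ?_⟩
  have h1 := congrArg (fun z : algebraicClosure ℚ ℂ_[p] => (z : ℂ_[p])) (RingHom.congr_fun hγ y)
  exact h1

section big

variable {J : Type} [Finite J] (H : J → Type) [∀ j, Field (H j)] [∀ j, NumberField (H j)]

/-- A large Galois extension. -/
theorem exists_big' (σ : ∀ j, H j →+* ℂ_[p]) :
    ∃ (M : Type) (_ : Field M) (_ : NumberField M) (_ : IsGalois ℚ M) (inc : M →+* ℂ_[p]),
      ∀ j, ∃ τ : H j →+* M, inc.comp τ = σ j := by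
  let T : IntermediateField ℚ ℂ_[p] := ⨆ j, (RingHom.toRatAlgHom (σ j)).fieldRange
  have hfd1 : ∀ j, FiniteDimensional ℚ (RingHom.toRatAlgHom (σ j)).fieldRange := by
    intro j
    have e := AlgEquiv.ofInjectiveField (RingHom.toRatAlgHom (σ j))
    exact Module.Finite.equiv e.toLinearEquiv
  have hfd : FiniteDimensional ℚ T := IntermediateField.finiteDimensional_iSup_of_finite
  have hnf : NumberField T :=
    { to_charZero := inferInstance
      to_finiteDimensional := by convert hfd }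
  obtain ⟨M, iM, iN, iG, inc, hinc⟩ := exists_big p T
  obtain ⟨t, ht⟩ := hinc (T.val : T →+* ℂ_[p])
  refine ⟨M, iM, iN, iG, inc, fun j => ?_⟩
  have hle : (RingHom.toRatAlgHom (σ j)).fieldRange ≤ T :=
    le_iSup (fun j => (RingHom.toRatAlgHom (σ j)).fieldRange) j
  let f : H j →+* T :=
    { toFun := fun y => ⟨σ j y, hle ⟨y, rfl⟩⟩
      map_one' := Subtype.ext (map_one _)
      map_mul' := fun a b => Subtype.ext (map_mul _ a b)
      map_zero' := Subtype.ext (map_zero _)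
      map_add' := fun a b => Subtype.ext (map_add _ a b) }
  refine ⟨t.comp f, ?_⟩
  rw [← RingHom.comp_assoc, ht]
  rfl

end big

variable {L : ℂ_[p] → ℂ_[p]} (hL : IsIwasawaLog p L)

include hL

/-- **Pairwise separated characters.** -/
theorem bounds_sep (A : QSub ℂ_[p]) (hA : FinQ A) {J : Type} [Fintype J] (K H : J → Type)
    [∀ j, Field (K j)] [∀ j, NumberField (K j)] [∀ j, Field (H j)] [∀ j, NumberField (H j)]
    [∀ j, Algebra (K j) (H j)] (χ : ∀ j, (H j ≃ₐ[K j] H j) →* ℂ_[p]ˣ) (σ : ∀ j, H j →+* ℂ_[p])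
    (hsep : ∀ j j', j ≠ j' → Differ (χ j) (σ j) (χ j') (σ j')) (r : J → ℕ)
    (x : ∀ j, Fin (r j) → UM p (H j)) (hx0 : ∀ j, LinearIndependent ℂ_[p] (x j))
    (hx : ∀ j i, InChi (χ j) (x j i)) (hlog : ∀ j i, logLin hL (σ j) (x j i) = 0)
    (hxA : ∀ j i, HasCoords A (x j i)) : Bounds A (∑ j, r j) := by
  classical
  have hfin : ∀ j, FiniteDimensional (K j) (H j) := fun j =>
    Module.Finite.of_restrictScalars_finite ℚ (K j) (H j)
  obtain ⟨θ⟩ := exists_theta p
  obtain ⟨M, iM, iN, iG, inc, hinc⟩ := exists_big' H σ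
  choose τ hτ using hinc
  have hτ' : ∀ j y, inc (τ j y) = σ j y := fun j y => RingHom.congr_fun (hτ j) y
  have key : ∀ (g : GalQ p) (γ : M ≃ₐ[ℚ] M),
      (∀ y, ((g (toQb inc y) : algebraicClosure ℚ ℂ_[p]) : ℂ_[p]) = inc (γ y)) →
      ∀ j (h : H j ≃ₐ[K j] H j), Induces g (σ j) (h : H j →+* H j) →
        (γ : M →+* M).comp (τ j) = (τ j).comp (h : H j →+* H j) := by
    intro g γ hγ j h hh
    ext y
    apply inc.injective
    change inc (γ (τ j y)) = inc (τ j (h y))
    rw [← hγ, hτ']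
    exact hh y _ (hτ' j y)
  have hind := indep_conj' θ χ r x hx hx0 τ (fun j j' hjj' => by
    obtain ⟨g, h, h', h1, h2, h3⟩ := hsep j j' hjj'
    obtain ⟨γ, hγ⟩ := exists_aut_of inc g
    exact ⟨γ, h, h', key g γ hγ j h h1, key g γ hγ j' h' h2, h3⟩)
  choose b hbA hb using fun q : Σ j, Fin (r j) => coords_push (hxA q.1 q.2) (τ q.1)
  let u : Fin (Units.rank M) → ℂ_[p] := fun k => inc (fundSystem M k : 𝓞 M)
  have hu : ∀ k, NearU (u k) := fun k => nearU_unit inc _
  have hum : ∀ m : Fin (Units.rank M) → ℤ, ∏ i, u i ^ m i = 1 → m = 0 := by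
    intro m hm
    have h1 := congrArg L hm
    rw [log_prod hL _ _ fun j _ => (nearU_zpow (hu j) _).ne, log_one hL] at h1
    have h2 := Fintype.linearIndependent_iff.1 (indep_log hL inc) (fun k => (m k : ℚ)) (by
      rw [← h1]
      refine Finset.sum_congr rfl fun k _ => ?_
      rw [log_zpow hL (hu k).ne, Algebra.smul_def, eq_ratCast, Rat.cast_intCast])
    funext k
    exact_mod_cast h2 k
  let e : (Σ j, Fin (r j)) ≃ Fin (∑ j, r j) := Fintype.equivFinOfCardEq (by simp)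
  refine bounds_indep hL A hA u hu hum _ (fun m => b (e.symm m)) ?_ (fun m k => hbA _ _) ?_
  · have hf : LinearIndependent ℂ_[p] b := by
      rw [Fintype.linearIndependent_iff] at hind ⊢
      intro c hc
      apply hind c
      have h1 : ∀ k, ∑ i, c i * b i k = 0 := by
        intro k
        have h2 := congrFun hc k
        rw [Finset.sum_apply] at h2
        exact h2
      calc ∑ i, c i • push (τ i.1) (x i.1 i.2) =
          ∑ i, ∑ k, (c i * b i k) • ((1 : ℂ_[p]) ⊗ₜ[ℤ] fu M k) := by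
            refine Finset.sum_congr rfl fun i _ => ?_
            rw [hb, Finset.smul_sum]
            refine Finset.sum_congr rfl fun k _ => ?_
            rw [smul_smul]
        _ = 0 := by
            rw [Finset.sum_comm]
            refine Finset.sum_eq_zero fun k _ => ?_
            rw [← Finset.sum_smul, h1, zero_smul]
    exact hf.comp _ e.symm.injective
  · intro m
    have h1 : logLin hL inc (push (τ (e.symm m).1) (x (e.symm m).1 (e.symm m).2)) = 0 := by
      rw [logLin_push, hτ]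
      exact hlog _ _
    rw [← h1, hb, map_sum]
    refine Finset.sum_congr rfl fun k _ => ?_
    rw [map_smul, logLin_tmul', one_mul, smul_eq_mul]
    rfl

end Pool.Agent.Q244.TD
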